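import Mathlib

/-!
# Hyperbolic length functions on groups
-/

set_option autoImplicit false

namespace Pool.Agent.J4.H8.QP

/-- a length function on a group -/
structure LenFn {G : Type*} [Group G] (l : G → ℝ) : Prop where
  one : l 1 = 0
  inv : ∀ g, l g⁻¹ = l g
  mul : ∀ g h, l (g * h) ≤ l g + l h

section
variable {G : Type*} [Group G] {l : G → ℝ}

theorem LenFn.nonneg (hl : LenFn l) (g : G) : 0 ≤ l g := by
  have h1 := hl.mul g g⁻¹
  rw [mul_inv_cancel, hl.one, hl.inv] at h1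
  linarith

/-- the triangle inequality for `d (a, b) = l (a⁻¹ b)` -/
theorem LenFn.tri (hl : LenFn l) (a b c : G) : l (a⁻¹ * c) ≤ l (a⁻¹ * b) + l (b⁻¹ * c) := by
  have h := hl.mul (a⁻¹ * b) (b⁻¹ * c)
  have e : a⁻¹ * b * (b⁻¹ * c) = a⁻¹ * c := by group
  rwa [e] at h

theorem LenFn.symm (hl : LenFn l) (a b : G) : l (a⁻¹ * b) = l (b⁻¹ * a) := by
  rw [← hl.inv (a⁻¹ * b)]
  congr 1
  group

/-- hyperbolicity with respect to the base point -/
def Hyp (l : G → ℝ) (δ : ℝ) : Prop :=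
  ∀ x y z : G, min ((l x + l y - l (x⁻¹ * y)) / 2) ((l y + l z - l (y⁻¹ * z)) / 2) - δ ≤
    (l x + l z - l (x⁻¹ * z)) / 2

theorem Hyp.nonneg (hl : LenFn l) {δ : ℝ} (h : Hyp l δ) : 0 ≤ δ := by
  have := h 1 1 1
  simp [hl.one] at this
  exact this

/-- hyperbolicity with respect to an arbitrary base point -/
theorem Hyp.base {δ : ℝ} (h : Hyp l δ) (o x y z : G) :
    min ((l (o⁻¹ * x) + l (o⁻¹ * y) - l (x⁻¹ * y)) / 2)
      ((l (o⁻¹ * y) + l (o⁻¹ * z) - l (y⁻¹ * z)) / 2) - δ ≤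
      (l (o⁻¹ * x) + l (o⁻¹ * z) - l (x⁻¹ * z)) / 2 := by
  have h1 := h (o⁻¹ * x) (o⁻¹ * y) (o⁻¹ * z)
  have e1 : (o⁻¹ * x)⁻¹ * (o⁻¹ * y) = x⁻¹ * y := by group
  have e2 : (o⁻¹ * y)⁻¹ * (o⁻¹ * z) = y⁻¹ * z := by group
  have e3 : (o⁻¹ * x)⁻¹ * (o⁻¹ * z) = x⁻¹ * z := by group
  rwa [e1, e2, e3] at h1

/-- the four point inequality -/
theorem Hyp.four (hl : LenFn l) {δ : ℝ} (h : Hyp l δ) (x y z w : G) :
    l (x⁻¹ * z) + l (y⁻¹ * w) ≤
      max (l (x⁻¹ * y) + l (z⁻¹ * w)) (l (x⁻¹ * w) + l (y⁻¹ * z)) + 2 * δ := by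
  have h1 := h (w⁻¹ * x) (w⁻¹ * y) (w⁻¹ * z)
  have e1 : (w⁻¹ * x)⁻¹ * (w⁻¹ * y) = x⁻¹ * y := by group
  have e2 : (w⁻¹ * y)⁻¹ * (w⁻¹ * z) = y⁻¹ * z := by group
  have e3 : (w⁻¹ * x)⁻¹ * (w⁻¹ * z) = x⁻¹ * z := by group
  rw [e1, e2, e3, hl.symm w x, hl.symm w y, hl.symm w z] at h1
  rcases le_total ((l (x⁻¹ * w) + l (y⁻¹ * w) - l (x⁻¹ * y)) / 2)
    ((l (y⁻¹ * w) + l (z⁻¹ * w) - l (y⁻¹ * z)) / 2) with h2 | h2
  · rw [min_eq_left h2] at h1
    have := le_max_left (l (x⁻¹ * y) + l (z⁻¹ * w)) (l (x⁻¹ * w) + l (y⁻¹ * z))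
    linarith
  · rw [min_eq_right h2] at h1
    have := le_max_right (l (x⁻¹ * y) + l (z⁻¹ * w)) (l (x⁻¹ * w) + l (y⁻¹ * z))
    linarith

/-- the comparison of two far away points seen from `1` and `g` -/
theorem Hyp.compare (hl : LenFn l) {δ : ℝ} (h : Hyp l δ) (g p q : G)
    (hpq : 2 * l g + 2 * δ < l p + l q - l (p⁻¹ * q)) :
    (l (g⁻¹ * p) - l p) - (l (g⁻¹ * q) - l q) ≤ 2 * δ := by
  have h1 := h.four hl g 1 p q
  simp only [inv_one, one_mul, mul_one] at h1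
  rw [hl.inv] at h1
  have h2 := hl.mul g (g⁻¹ * p)
  rw [mul_inv_cancel_left] at h2
  rcases le_total (l g + l (p⁻¹ * q)) (l (g⁻¹ * q) + l p) with h3 | h3
  · rw [max_eq_right h3] at h1
    linarith
  · rw [max_eq_left h3] at h1
    linarith

theorem LenFn.pow_le (hl : LenFn l) (t : G) (n : ℕ) : l (t ^ n) ≤ n * l t := by
  induction n with
  | zero => simp [hl.one]
  | succ n ih =>
    rw [pow_succ]
    have := hl.mul (t ^ n) t
    push_cast
    linarith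

/-- Almost additivity of the lengths of the powers of an element with positive translation
length. -/
theorem lox_additive (hl : LenFn l) {δ : ℝ} (h : Hyp l δ) (t : G) {c : ℝ} (hc : 0 < c)
    (hlin : ∀ n : ℕ, c * n ≤ l (t ^ n)) :
    ∃ C : ℝ, 0 ≤ C ∧ ∀ m n : ℕ, l (t ^ m) + l (t ^ n) ≤ l (t ^ (m + n)) + C := by
  have hδ := h.nonneg hl
  -- step 1: find `N`
  have hN : ∃ N : ℕ, l (t ^ N) + 3 * δ < l (t ^ (2 * N)) := by
    by_contra hcon
    push Not at hcon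
    have hj : ∀ j : ℕ, l (t ^ (2 ^ j)) ≤ l t + 3 * δ * j := by
      intro j
      induction j with
      | zero => simp
      | succ j ih =>
        have := hcon (2 ^ j)
        rw [pow_succ' 2 j]
        push_cast
        linarith
    obtain ⟨i, hi⟩ := exists_nat_gt ((l t + 6 * δ + 1) / c)
    have h1 := hj (2 * i)
    have h2 := hlin (2 ^ (2 * i))
    have h3 : ((2 ^ (2 * i) : ℕ) : ℝ) = ((2 ^ i : ℕ) : ℝ) ^ 2 := by
      push_cast
      rw [← pow_mul, mul_comm]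
    have h4 : ((i : ℝ) + 1) ≤ ((2 ^ i : ℕ) : ℝ) := by
      have : i + 1 ≤ 2 ^ i := Nat.lt_two_pow_self
      exact_mod_cast this
    rw [h3] at h2
    have h5 : l t + 6 * δ + 1 < c * i := by
      rw [div_lt_iff₀ hc] at hi
      linarith
    have h6 : ((i : ℝ) + 1) ^ 2 ≤ ((2 ^ i : ℕ) : ℝ) ^ 2 := by gcongr
    have h7 : c * ((i : ℝ) + 1) ^ 2 ≤ l t + 3 * δ * ((2 * i : ℕ) : ℝ) :=
      ((mul_le_mul_of_nonneg_left h6 hc.le).trans h2).trans h1
    push_cast at h7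
    have h8 := hl.nonneg t
    have h9 : (0 : ℝ) ≤ i := Nat.cast_nonneg i
    nlinarith
  obtain ⟨N, hN⟩ := hN
  set u := t ^ N with hu
  set b : ℕ → ℝ := fun k => l (u ^ k) with hb
  have hb0 : ∀ k, 0 ≤ b k := fun k => hl.nonneg _
  have hD : 3 * δ + b 1 < b 2 := by
    simp only [hb, pow_one]
    rw [← pow_mul, mul_comm N 2]
    linarith
  set D := b 2 - b 1 - 2 * δ with hDdef
  have hδD : δ < D := by linarith
  -- distances between powers
  have hd : ∀ i j : ℕ, l ((u ^ i)⁻¹ * u ^ (i + j)) = b j := by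
    intro i j
    simp only [hb]
    rw [pow_add, inv_mul_cancel_left]
  have hinc : ∀ k : ℕ, 1 ≤ k → b k + D ≤ b (k + 1) := by
    intro k hk
    induction k, hk using Nat.le_induction with
    | base => linarith
    | succ k hk ih =>
      have h4 := h.four hl (u ^ 0) (u ^ 1) (u ^ 2) (u ^ (k + 2))
      have e1 : l ((u ^ 0)⁻¹ * u ^ 2) = b 2 := hd 0 2
      have e2 : l ((u ^ 1)⁻¹ * u ^ (k + 2)) = b (k + 1) := by
        rw [← hd 1 (k + 1)]; congr 3; omega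
      have e3 : l ((u ^ 0)⁻¹ * u ^ 1) = b 1 := hd 0 1
      have e4 : l ((u ^ 2)⁻¹ * u ^ (k + 2)) = b k := by
        rw [← hd 2 k]; congr 3; omega
      have e5 : l ((u ^ 0)⁻¹ * u ^ (k + 2)) = b (k + 2) := by
        rw [← hd 0 (k + 2)]; congr 3; omega
      have e6 : l ((u ^ 1)⁻¹ * u ^ 2) = b 1 := hd 1 1
      rw [e1, e2, e3, e4, e5, e6] at h4
      rcases le_total (b 1 + b k) (b (k + 2) + b 1) with h5 | h5
      · rw [max_eq_right h5] at h4
        have e7 : b (k + 1 + 1) = b (k + 2) := rfl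
        rw [e7]
        linarith
      · rw [max_eq_left h5] at h4
        linarith
  have hinc' : ∀ k : ℕ, 1 ≤ k → b k ≤ b (k + 1) := by
    intro k hk
    have := hinc k hk
    linarith
  have hadd1 : ∀ k j : ℕ, 1 ≤ k → 1 ≤ j → b (k + 1) + b (j + 1) ≤ b (k + j + 2) + b 1 + 2 * δ := by
    intro k j hk hj
    have h4 := h.four hl (u ^ 0) (u ^ k) (u ^ (k + 1)) (u ^ (k + 1 + j))
    have e1 : l ((u ^ 0)⁻¹ * u ^ (k + 1)) = b (k + 1) := by
      rw [← hd 0 (k + 1)]; congr 3; omega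
    have e2 : l ((u ^ k)⁻¹ * u ^ (k + 1 + j)) = b (j + 1) := by
      rw [← hd k (j + 1)]; congr 3; omega
    have e3 : l ((u ^ 0)⁻¹ * u ^ k) = b k := by
      rw [← hd 0 k]; congr 3; omega
    have e4 : l ((u ^ (k + 1))⁻¹ * u ^ (k + 1 + j)) = b j := hd (k + 1) j
    have e5 : l ((u ^ 0)⁻¹ * u ^ (k + 1 + j)) = b (k + 1 + j) := by
      rw [← hd 0 (k + 1 + j)]; congr 3; omega
    have e6 : l ((u ^ k)⁻¹ * u ^ (k + 1)) = b 1 := hd k 1
    rw [e1, e2, e3, e4, e5, e6] at h4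
    have h6 := hinc k hk
    have h7 := hinc j hj
    rcases le_total (b k + b j) (b (k + 1 + j) + b 1) with h5 | h5
    · rw [max_eq_right h5] at h4
      have h8 := hinc' (k + 1 + j) (by omega)
      have e7 : k + 1 + j + 1 = k + j + 2 := by omega
      rw [e7] at h8
      linarith
    · rw [max_eq_left h5] at h4
      linarith
  have hsub : ∀ p q : ℕ, b q ≤ b (p + q) + b p := by
    intro p q
    have h1 := hl.mul (u ^ p)⁻¹ (u ^ (p + q))
    rw [pow_add, inv_mul_cancel_left, hl.inv] at h1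
    rw [← pow_add] at h1
    simp only [hb]
    linarith
  have hadd : ∀ p q : ℕ, b p + b q ≤ b (p + q) + 2 * b 1 + 2 * δ := by
    intro p q
    rcases Nat.lt_or_ge p 2 with hp | hp
    · have h1 : b p ≤ b 1 := by
        rcases Nat.lt_or_ge p 1 with hp1 | hp1
        · have : p = 0 := by omega
          subst this
          simp only [hb, pow_zero, hl.one]
          exact hl.nonneg _
        · have : p = 1 := by omega
          rw [this]
      have h2 := hsub p q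
      linarith
    · rcases Nat.lt_or_ge q 2 with hq | hq
      · have h1 : b q ≤ b 1 := by
          rcases Nat.lt_or_ge q 1 with hq1 | hq1
          · have : q = 0 := by omega
            subst this
            simp only [hb, pow_zero, hl.one]
            exact hl.nonneg _
          · have : q = 1 := by omega
            rw [this]
        have h2 := hsub q p
        rw [add_comm q p] at h2
        linarith
      · have h1 := hadd1 (p - 1) (q - 1) (by omega) (by omega)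
        have e1 : p - 1 + 1 = p := by omega
        have e2 : q - 1 + 1 = q := by omega
        have e3 : p - 1 + (q - 1) + 2 = p + q := by omega
        rw [e1, e2, e3] at h1
        have := hb0 1
        linarith
  -- step 3: all exponents
  set A : ℝ := N * l t with hA
  have hNpos : 0 < N := by
    rcases Nat.eq_zero_or_pos N with h0 | h0
    · subst h0
      simp [hl.one] at hN
      have := hl.nonneg u
      linarith
    · exact h0
  have hA0 : 0 ≤ A := mul_nonneg (Nat.cast_nonneg N) (hl.nonneg t)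
  have hrem : ∀ r : ℕ, r < N → l (t ^ r) ≤ A := by
    intro r hr
    refine (hl.pow_le t r).trans ?_
    rw [hA]
    exact mul_le_mul_of_nonneg_right (by exact_mod_cast hr.le) (hl.nonneg t)
  have hbig : ∀ n : ℕ, l (t ^ n) ≤ b (n / N) + A := by
    intro n
    have h1 : t ^ n = u ^ (n / N) * t ^ (n % N) := by
      rw [hu, ← pow_mul, ← pow_add, Nat.div_add_mod]
    rw [h1]
    have h2 := hl.mul (u ^ (n / N)) (t ^ (n % N))
    have h3 := hrem (n % N) (Nat.mod_lt n hNpos)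
    simp only [hb]
    linarith
  refine ⟨2 * b 1 + 2 * δ + 4 * A, by have := hb0 1; positivity, fun m n => ?_⟩
  have h1 := hbig m
  have h2 := hbig n
  have h3 := hadd (m / N) (n / N)
  have h4 : b (m / N + n / N) ≤ l (t ^ (m + n)) + 2 * A := by
    have e : u ^ (m / N + n / N) = t ^ (m + n) * ((t ^ (m % N))⁻¹ * (t ^ (n % N))⁻¹) := by
      rw [← mul_inv_rev, ← pow_add, eq_mul_inv_iff_mul_eq, hu, ← pow_mul, ← pow_add]
      congr 1
      have h5 := Nat.div_add_mod m N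
      have h6 := Nat.div_add_mod n N
      rw [mul_add]
      omega
    simp only [hb]
    rw [e]
    have h5 := hl.mul (t ^ (m + n)) ((t ^ (m % N))⁻¹ * (t ^ (n % N))⁻¹)
    have h6 := hl.mul (t ^ (m % N))⁻¹ (t ^ (n % N))⁻¹
    rw [hl.inv, hl.inv] at h6
    have h7 := hrem (m % N) (Nat.mod_lt m hNpos)
    have h8 := hrem (n % N) (Nat.mod_lt n hNpos)
    linarith
  linarith

/-- Contraction towards the repelling point of `t`. -/
theorem contraction (hl : LenFn l) {δ : ℝ} (h : Hyp l δ) (t : G) {c : ℝ} (hc : 0 < c)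
    (hlin : ∀ n : ℕ, c * n ≤ l (t ^ n)) (P : ℤ → Subgroup G)
    (hP : ∀ m : ℤ, ∀ g ∈ P m, ∀ n : ℕ, t ^ n * g * (t ^ n)⁻¹ ∈ P m)
    (hbd : ∀ m : ℤ, ∃ M : ℝ, ∀ g ∈ P m, l g ≤ M) :
    ∃ K C' : ℝ, 0 ≤ K ∧ 0 ≤ C' ∧
      (∀ m : ℤ, ∀ g ∈ P m, ∀ k : ℕ, l g ≤ 2 * l (t ^ k) → l (t ^ k * g * (t ^ k)⁻¹) ≤ K) ∧
      (∀ m : ℤ, ∀ g ∈ P m, ∀ k : ℕ, l (t ^ k) ≤ l (g * (t ^ k)⁻¹) + C') := by
  obtain ⟨C, hC0, hC⟩ := lox_additive hl h t hc hlin
  have hδ := h.nonneg hl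
  -- the main estimate
  have key : ∀ m : ℤ, ∀ g ∈ P m, ∀ k : ℕ, ∃ n : ℕ, k ≤ n ∧
      |l (g⁻¹ * (t ^ n)⁻¹) - l (t ^ n)| ≤ 2 * δ + 1 ∧
      |l ((g * (t ^ k)⁻¹)⁻¹ * (t ^ n)⁻¹) - l (t ^ (n - k))| ≤ 4 * δ + 1 := by
    intro m g hg k
    obtain ⟨M, hM⟩ := hbd m
    have hM0 : 0 ≤ M := (hl.nonneg 1).trans (hM 1 (one_mem _))
    -- choose `n`
    obtain ⟨n0, hn0⟩ := exists_nat_gt ((2 * M + δ + l (t ^ k) + k + 1) / c)
    set n := k + n0 with hndef
    have hkn : k ≤ n := by omega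
    have hn1 : 2 * M + δ + l (t ^ k) + k + 1 < l (t ^ n) := by
      rw [div_lt_iff₀ hc] at hn0
      have := hlin n
      have h1 : c * (n0 : ℝ) ≤ c * n := by
        apply mul_le_mul_of_nonneg_left _ hc.le
        rw [hndef]
        push_cast
        have := Nat.cast_nonneg (α := ℝ) k
        linarith
      linarith
    have hk0 := hl.nonneg (t ^ k)
    have hkc : (0 : ℝ) ≤ k := Nat.cast_nonneg k
    -- closeness of `s_n` and `g⁻¹ s_n`
    have hclose : ∀ g ∈ P m, l (((g⁻¹ * (t ^ n)⁻¹))⁻¹ * (t ^ n)⁻¹) ≤ M := by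
      intro g hg
      have := hM _ (hP m g hg n)
      have e : (g⁻¹ * (t ^ n)⁻¹)⁻¹ * (t ^ n)⁻¹ = t ^ n * g * (t ^ n)⁻¹ := by group
      rw [e]
      exact this
    have hfar : ∀ g ∈ P m, l (t ^ n) - M ≤ l (g⁻¹ * (t ^ n)⁻¹) := by
      intro g hg
      have h1 := hl.mul g (g⁻¹ * (t ^ n)⁻¹)
      rw [mul_inv_cancel_left, hl.inv] at h1
      have := hM g hg
      linarith
    -- comparison
    have hcmp : ∀ g ∈ P m, ∀ x : G, 2 * l x + 2 * δ < 2 * l (t ^ n) - 2 * M →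
        |(l (x⁻¹ * (g⁻¹ * (t ^ n)⁻¹)) - l (g⁻¹ * (t ^ n)⁻¹)) -
          (l (x⁻¹ * (t ^ n)⁻¹) - l (t ^ n))| ≤ 2 * δ := by
      intro g hg x hx
      have h1 := hclose g hg
      have h2 := hfar g hg
      rw [abs_le]
      constructor
      · have h3 := h.compare hl x (t ^ n)⁻¹ (g⁻¹ * (t ^ n)⁻¹) (by
          rw [hl.symm (t ^ n)⁻¹, hl.inv]
          linarith)
        rw [hl.inv] at h3
        linarith
      · have h3 := h.compare hl x (g⁻¹ * (t ^ n)⁻¹) (t ^ n)⁻¹ (by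
          rw [hl.inv]
          linarith)
        rw [hl.inv (t ^ n)] at h3
        linarith
    -- the quasi-Busemann function is small on `P m`
    have hf : ∀ i : ℕ, ∀ g ∈ P m, |l (g⁻¹ * (t ^ n)⁻¹) - l (t ^ n)| ≤ M / 2 ^ i + 2 * δ := by
      intro i
      induction i with
      | zero =>
        intro g hg
        have h1 := hfar g hg
        have h2 := hl.mul g⁻¹ (t ^ n)⁻¹
        rw [hl.inv, hl.inv] at h2
        have h3 := hM g hg
        rw [abs_le]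
        constructor <;> simp <;> linarith
      | succ i ih =>
        intro g hg
        have h1 := ih (g * g) (mul_mem hg hg)
        have h2 := hcmp g hg g (by have := hM g hg; linarith)
        have e : (g * g)⁻¹ * (t ^ n)⁻¹ = g⁻¹ * (g⁻¹ * (t ^ n)⁻¹) := by group
        rw [e] at h1
        rw [abs_le] at h1 h2 ⊢
        have e2 : M / 2 ^ (i + 1) = (M / 2 ^ i) / 2 := by
          rw [pow_succ]
          field_simp
        rw [e2]
        constructor <;> linarith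
    have hf' : ∀ g ∈ P m, |l (g⁻¹ * (t ^ n)⁻¹) - l (t ^ n)| ≤ 2 * δ + 1 := by
      intro g hg
      obtain ⟨i, hi⟩ := exists_nat_gt M
      have h1 := hf i g hg
      have h2 : M / 2 ^ i ≤ 1 := by
        rw [div_le_one (by positivity)]
        have : i < 2 ^ i := Nat.lt_two_pow_self
        have h3 : (i : ℝ) < 2 ^ i := by exact_mod_cast this
        linarith
      linarith
    refine ⟨n, hkn, hf' g hg, ?_⟩
    have h1 := hcmp g hg (t ^ k)⁻¹ (by rw [hl.inv]; linarith)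
    have h2 := hf' g hg
    have e1 : (g * (t ^ k)⁻¹)⁻¹ * (t ^ n)⁻¹ = ((t ^ k)⁻¹)⁻¹ * (g⁻¹ * (t ^ n)⁻¹) := by group
    have e2 : l (((t ^ k)⁻¹)⁻¹ * (t ^ n)⁻¹) = l (t ^ (n - k)) := by
      have : ((t ^ k)⁻¹)⁻¹ * (t ^ n)⁻¹ = (t ^ (n - k))⁻¹ := by
        rw [inv_inv, mul_inv_eq_iff_eq_mul, eq_inv_mul_iff_mul_eq, ← pow_add]
        congr 1
        omega
      rw [this, hl.inv]
    rw [e1]
    rw [e2] at h1
    rw [abs_le] at h1 h2 ⊢
    constructor <;> linarith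
  refine ⟨2 * C + 14 * δ + 3, C + 4 * δ + 1, by positivity, by positivity, ?_, ?_⟩
  · intro m g hg k hk
    obtain ⟨n, hkn, h1, h2⟩ := key m g hg k
    have h3 := hC (n - k) k
    have e0 : n - k + k = n := by omega
    rw [e0] at h3
    have b1 := h.base (t ^ n)⁻¹ (t ^ k)⁻¹ 1 (g * (t ^ k)⁻¹)
    have b2 := h.base (t ^ n)⁻¹ 1 g (g * (t ^ k)⁻¹)
    have f1 : l (((t ^ n)⁻¹)⁻¹ * (t ^ k)⁻¹) = l (t ^ (n - k)) := by
      have : ((t ^ n)⁻¹)⁻¹ * (t ^ k)⁻¹ = t ^ (n - k) := by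
        rw [inv_inv, mul_inv_eq_iff_eq_mul, ← pow_add]
        congr 1
        omega
      rw [this]
    have f2 : l (((t ^ n)⁻¹)⁻¹ * 1) = l (t ^ n) := by simp
    have f3 : l (((t ^ n)⁻¹)⁻¹ * g) = l (g⁻¹ * (t ^ n)⁻¹) := by rw [hl.symm]
    have f4 : l (((t ^ n)⁻¹)⁻¹ * (g * (t ^ k)⁻¹)) = l ((g * (t ^ k)⁻¹)⁻¹ * (t ^ n)⁻¹) := by
      rw [hl.symm]
    have f5 : l (((t ^ k)⁻¹)⁻¹ * 1) = l (t ^ k) := by simp
    have f6 : l ((1 : G)⁻¹ * (g * (t ^ k)⁻¹)) = l (g * (t ^ k)⁻¹) := by simp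
    have f7 : l (((t ^ k)⁻¹)⁻¹ * (g * (t ^ k)⁻¹)) = l (t ^ k * g * (t ^ k)⁻¹) := by
      congr 1; group
    have f8 : l ((1 : G)⁻¹ * g) = l g := by simp
    have f9 : l (g⁻¹ * (g * (t ^ k)⁻¹)) = l (t ^ k) := by
      rw [inv_mul_cancel_left, hl.inv]
    rw [f1, f2, f4, f5, f6, f7] at b1
    rw [f2, f3, f4, f8, f9, f6] at b2
    rw [abs_le] at h1 h2
    set X := l (t ^ k * g * (t ^ k)⁻¹)
    set W := l (g * (t ^ k)⁻¹)
    rcases min_le_iff.1 (sub_le_iff_le_add.1 b1) with b1 | b1 <;>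
      rcases min_le_iff.1 (sub_le_iff_le_add.1 b2) with b2 | b2 <;> linarith
  · intro m g hg k
    obtain ⟨n, hkn, h1, h2⟩ := key m g hg k
    have h3 := hC (n - k) k
    have e0 : n - k + k = n := by omega
    rw [e0] at h3
    rw [abs_le] at h1 h2
    have h4 := hl.mul (g * (t ^ k)⁻¹) ((g * (t ^ k)⁻¹)⁻¹ * (t ^ n)⁻¹)
    rw [mul_inv_cancel_left, hl.inv] at h4
    linarith

end

end Pool.Agent.J4.H8.QP
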