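import Mathlib
import Pool.Agent.J4.H8.QP.Hyp

/-!
# The Bergman property of the symmetric group of a countable set: length functions are bounded
-/

set_option autoImplicit false

namespace Pool.Agent.J4.H8.QP

open Equiv

/-- extension of an injection to a permutation -/
theorem exists_perm_extend {Ω : Type*} [Countable Ω] (S : Set Ω) (f : Ω → Ω) (hf : Set.InjOn f S)
    (h1 : Sᶜ.Infinite) (h2 : (f '' S)ᶜ.Infinite) : ∃ σ : Perm Ω, ∀ x ∈ S, σ x = f x := by
  classical
  have i1 : Infinite ↥(Sᶜ) := h1.to_subtype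
  have i2 : Infinite ↥((f '' S)ᶜ) := h2.to_subtype
  obtain ⟨e2⟩ := nonempty_equiv_of_countable (α := ↥(Sᶜ)) (β := ↥((f '' S)ᶜ))
  let e1 := Equiv.Set.imageOfInjOn f S hf
  let σ : Perm Ω := (Equiv.Set.sumCompl S).symm.trans
    ((Equiv.sumCongr e1 e2).trans (Equiv.Set.sumCompl (f '' S)))
  refine ⟨σ, fun x hx => ?_⟩
  simp only [σ, Equiv.trans_apply]
  rw [Equiv.Set.sumCompl_symm_apply_of_mem hx]
  simp [e1, Equiv.Set.imageOfInjOn]

/-- `l` is bounded on the permutations that fix all points of `A`. -/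
def BddFix {Ω : Type*} (l : Perm Ω → ℝ) (A : Set Ω) : Prop :=
  ∃ M : ℝ, ∀ g : Perm Ω, (∀ x ∈ A, g x = x) → l g ≤ M

theorem BddFix.transfer {Ω : Type*} [Countable Ω] {l : Perm Ω → ℝ} (hl : LenFn l) {A B : Set Ω}
    (hA : BddFix l A) (h1 : A.Infinite) (h2 : Aᶜ.Infinite) (h3 : B.Infinite) (h4 : Bᶜ.Infinite) :
    BddFix l B := by
  classical
  obtain ⟨M, hM⟩ := hA
  have i1 : Infinite ↥A := h1.to_subtype
  have i2 : Infinite ↥B := h3.to_subtype
  obtain ⟨e⟩ := nonempty_equiv_of_countable (α := ↥A) (β := ↥B)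
  have hne : Nonempty Ω := ⟨h1.nonempty.choose⟩
  let f : Ω → Ω := fun x => if h : x ∈ A then (e ⟨x, h⟩ : Ω) else x
  have hfA : ∀ x (h : x ∈ A), f x = e ⟨x, h⟩ := fun x h => by simp [f, h]
  have himg : f '' A = B := by
    ext y
    constructor
    · rintro ⟨x, hx, rfl⟩
      rw [hfA x hx]
      exact (e ⟨x, hx⟩).2
    · intro hy
      refine ⟨(e.symm ⟨y, hy⟩ : Ω), (e.symm ⟨y, hy⟩).2, ?_⟩
      rw [hfA _ (e.symm ⟨y, hy⟩).2]
      simp
  have hinj : Set.InjOn f A := by
    intro x hx y hy hxy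
    rw [hfA x hx, hfA y hy] at hxy
    have := e.injective (Subtype.ext hxy)
    exact congrArg Subtype.val this
  obtain ⟨u, hu⟩ := exists_perm_extend A f hinj h2 (by rw [himg]; exact h4)
  refine ⟨M + 2 * l u, fun g hg => ?_⟩
  have h5 : l (u⁻¹ * g * u) ≤ M := by
    apply hM
    intro x hx
    have : u x ∈ B := by
      rw [hu x hx, ← himg]
      exact ⟨x, hx, rfl⟩
    simp only [Perm.mul_apply]
    rw [hg _ this]
    simp
  have h6 := hl.mul (u * (u⁻¹ * g * u)) u⁻¹
  have h7 := hl.mul u (u⁻¹ * g * u)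
  rw [hl.inv] at h6
  have e1 : u * (u⁻¹ * g * u) * u⁻¹ = g := by group
  rw [e1] at h6
  linarith

/-- If `l` is bounded on the pointwise stabilizer of one moiety, it is bounded. -/
theorem bdd_of_bddFix {Ω : Type*} [Countable Ω] {l : Perm Ω → ℝ} (hl : LenFn l) {A B : Set Ω}
    (hA : BddFix l A) (hB : BddFix l B) (hAB : Disjoint A B)
    (h1 : A.Infinite) (h3 : B.Infinite) (h4 : (A ∪ B)ᶜ.Infinite) :
    ∃ M : ℝ, ∀ g, l g ≤ M := by
  classical
  obtain ⟨M1, hM1⟩ := hA
  obtain ⟨M2, hM2⟩ := hB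
  have hAc : Aᶜ.Infinite := h4.mono (Set.compl_subset_compl.2 Set.subset_union_left)
  have hBc : Bᶜ.Infinite := h4.mono (Set.compl_subset_compl.2 Set.subset_union_right)
  -- the main case
  have main : ∀ h : Perm Ω, (Aᶜ ∩ h ⁻¹' Aᶜ).Infinite → l h ≤ 2 * M1 + M2 := by
    intro h hZ
    set Z := Aᶜ ∩ h ⁻¹' Aᶜ with hZdef
    let em := hZ.natEmbedding
    have i2 : Countable ↥B := inferInstance
    obtain ⟨e, he⟩ := exists_injective_nat ↥B
    -- the injection `y : B → Z`
    let y : Ω → Ω := fun x => if hx : x ∈ B then (em (2 * e ⟨x, hx⟩) : Ω) else x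
    have hyB : ∀ x (hx : x ∈ B), y x = em (2 * e ⟨x, hx⟩) := fun x hx => by simp [y, hx]
    have hyZ : ∀ x ∈ B, y x ∈ Z := fun x hx => by rw [hyB x hx]; exact (em _).2
    have hyA : ∀ x ∈ A, y x = x := by
      intro x hx
      have : x ∉ B := fun hx' => Set.disjoint_left.1 hAB hx hx'
      simp [y, this]
    have hyinj : Set.InjOn y B := by
      intro a ha b hb hab
      rw [hyB a ha, hyB b hb] at hab
      have h5 := em.injective (Subtype.ext hab)
      have h6 : e ⟨a, ha⟩ = e ⟨b, hb⟩ := by omega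
      exact congrArg Subtype.val (he h6)
    have hinj1 : Set.InjOn y (A ∪ B) := by
      rintro a (ha | ha) b (hb | hb) hab
      · rwa [hyA a ha, hyA b hb] at hab
      · exfalso
        rw [hyA a ha] at hab
        have := hyZ b hb
        rw [← hab] at this
        exact this.1 ha
      · exfalso
        rw [hyA b hb] at hab
        have := hyZ a ha
        rw [hab] at this
        exact this.1 hb
      · exact hyinj ha hb hab
    -- the odd points of `Z` are not used
    have hodd : (Set.range fun n : ℕ => (em (2 * n + 1) : Ω)).Infinite := by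
      apply Set.infinite_range_of_injective
      intro a b hab
      have := em.injective (Subtype.ext hab)
      omega
    have hoddy : ∀ n : ℕ, (em (2 * n + 1) : Ω) ∉ y '' (A ∪ B) := by
      rintro n ⟨x, hx | hx, hxy⟩
      · rw [hyA x hx] at hxy
        have := (em (2 * n + 1)).2
        rw [← hxy] at this
        exact this.1 hx
      · rw [hyB x hx] at hxy
        have := em.injective (Subtype.ext hxy)
        omega
    have him1 : (y '' (A ∪ B))ᶜ.Infinite := by
      refine hodd.mono ?_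
      rintro _ ⟨n, rfl⟩
      exact hoddy n
    obtain ⟨σ, hσ⟩ := exists_perm_extend (A ∪ B) y hinj1 h4 him1
    -- second permutation
    let z : Ω → Ω := fun x => if x ∈ B then h (y x) else x
    have hzB : ∀ x ∈ B, z x = h (y x) := fun x hx => by simp [z, hx]
    have hzA : ∀ x ∈ A, z x = x := by
      intro x hx
      have : x ∉ B := fun hx' => Set.disjoint_left.1 hAB hx hx'
      simp [z, this]
    have hinj2 : Set.InjOn z (A ∪ B) := by
      rintro a (ha | ha) b (hb | hb) hab
      · rwa [hzA a ha, hzA b hb] at hab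
      · exfalso
        rw [hzA a ha, hzB b hb] at hab
        have := (hyZ b hb).2
        rw [Set.mem_preimage, ← hab] at this
        exact this ha
      · exfalso
        rw [hzA b hb, hzB a ha] at hab
        have := (hyZ a ha).2
        rw [Set.mem_preimage, hab] at this
        exact this hb
      · rw [hzB a ha, hzB b hb] at hab
        exact hyinj ha hb (h.injective hab)
    have him2 : (z '' (A ∪ B))ᶜ.Infinite := by
      have : (h '' (Set.range fun n : ℕ => (em (2 * n + 1) : Ω))).Infinite :=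
        hodd.image h.injective.injOn
      refine this.mono ?_
      rintro _ ⟨_, ⟨n, rfl⟩, rfl⟩ ⟨x, hx | hx, hxz⟩
      · rw [hzA x hx] at hxz
        have := (em (2 * n + 1)).2.2
        simp only [Set.mem_preimage] at this
        rw [← hxz] at this
        exact this hx
      · rw [hzB x hx] at hxz
        exact hoddy n ⟨x, Or.inr hx, h.injective hxz⟩
    obtain ⟨τ, hτ⟩ := exists_perm_extend (A ∪ B) z hinj2 h4 him2
    have l1 : l σ ≤ M1 := hM1 σ fun x hx => by rw [hσ x (Or.inl hx), hyA x hx]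
    have l2 : l τ ≤ M1 := hM1 τ fun x hx => by rw [hτ x (Or.inl hx), hzA x hx]
    have l3 : l (τ⁻¹ * h * σ) ≤ M2 := hM2 _ fun x hx => by
      simp only [Perm.mul_apply]
      rw [hσ x (Or.inr hx), ← hzB x hx, ← hτ x (Or.inr hx)]
      simp
    have h5 := hl.mul (τ * (τ⁻¹ * h * σ)) σ⁻¹
    have h6 := hl.mul τ (τ⁻¹ * h * σ)
    rw [hl.inv] at h5
    have e1 : τ * (τ⁻¹ * h * σ) * σ⁻¹ = h := by group
    rw [e1] at h5
    linarith
  -- a permutation which moves `A` off itself
  have i1 : Infinite ↥A := h1.to_subtype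
  have i2 : Infinite ↥B := h3.to_subtype
  obtain ⟨e⟩ := nonempty_equiv_of_countable (α := ↥A) (β := ↥B)
  let f : Ω → Ω := fun x => if h : x ∈ A then (e ⟨x, h⟩ : Ω) else x
  have hfA : ∀ x (h : x ∈ A), f x = e ⟨x, h⟩ := fun x h => by simp [f, h]
  have himg : f '' A ⊆ B := by
    rintro _ ⟨x, hx, rfl⟩
    rw [hfA x hx]
    exact (e ⟨x, hx⟩).2
  have hinj : Set.InjOn f A := by
    intro x hx y hy hxy
    rw [hfA x hx, hfA y hy] at hxy
    have := e.injective (Subtype.ext hxy)
    exact congrArg Subtype.val this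
  obtain ⟨w, hw⟩ := exists_perm_extend A f hinj hAc
    (hBc.mono (Set.compl_subset_compl.2 himg))
  refine ⟨2 * M1 + M2 + l w, fun h => ?_⟩
  by_cases hZ : (Aᶜ ∩ h ⁻¹' Aᶜ).Infinite
  · have := main h hZ
    have := hl.nonneg w
    linarith
  · have hZ2 : (Aᶜ ∩ (w * h) ⁻¹' Aᶜ).Infinite := by
      rw [Set.not_infinite] at hZ
      have h5 := hAc.sdiff hZ
      refine h5.mono ?_
      rintro x ⟨hx1, hx2⟩
      refine ⟨hx1, ?_⟩
      have hx3 : h x ∈ A := by
        by_contra hcon
        exact hx2 ⟨hx1, hcon⟩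
      simp only [Set.mem_preimage, Perm.mul_apply, Set.mem_compl_iff]
      rw [hw _ hx3]
      exact fun hcon => Set.disjoint_left.1 hAB hcon (himg ⟨h x, hx3, rfl⟩)
    have h5 := main _ hZ2
    have h6 := hl.mul w⁻¹ (w * h)
    rw [inv_mul_cancel_left, hl.inv] at h6
    linarith

/-- the permutation `(i, x) ↦ (i, π i x)` -/
abbrev fib {I X : Type*} (π : I → Perm X) : Perm (I × X) := Equiv.prodShear (Equiv.refl I) π

theorem bergman_aux {l : Perm (ℕ × (ℤ × ℕ)) → ℝ} (hl : LenFn l) : ∃ M : ℝ, ∀ g, l g ≤ M := by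
  classical
  -- step 1
  have step1 : ∃ n : ℕ, ∀ π : Perm (ℤ × ℕ), ∃ g : Perm (ℕ × (ℤ × ℕ)), l g ≤ n ∧
      ∀ x, g (n, x) = (n, π x) := by
    by_contra hcon
    push Not at hcon
    choose π hπ using hcon
    obtain ⟨n, hn⟩ := exists_nat_ge (l (fib π))
    obtain ⟨x, hx⟩ := hπ n (fib π) hn
    exact hx rfl
  obtain ⟨n, hn⟩ := step1
  -- the shift
  let s : Perm (ℤ × ℕ) := Equiv.prodCongr (Equiv.addRight 1) (Equiv.refl ℕ)
  let S : Perm (ℕ × (ℤ × ℕ)) := fib (fun n' => if n' = n then s else 1)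
  -- the elements which are supported on one fibre
  let E : Perm ℕ → Perm (ℕ × (ℤ × ℕ)) := fun f =>
    fib (fun n' => if n' = n then fib (fun i : ℤ => if i = 0 then f else 1) else 1)
  have hE : ∀ f, l (E f) ≤ 2 * n + 2 * l S := by
    intro f
    obtain ⟨g, hg1, hg2⟩ := hn (fib (fun i : ℤ => if 0 ≤ i then f else 1))
    have hpres : ∀ x, (g⁻¹ x).1 = n → x.1 = n := by
      intro x hx
      have : x = g (g⁻¹ x) := by simp
      rw [this]
      have h3 : g⁻¹ x = (n, (g⁻¹ x).2) := by rw [← hx]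
      rw [h3, hg2]
    have hEq : E f = g * S * g⁻¹ * S⁻¹ := by
      rw [eq_mul_inv_iff_mul_eq, eq_mul_inv_iff_mul_eq]
      ext1 x
      obtain ⟨m, i, k⟩ := x
      by_cases hm : m = n
      · subst hm
        simp only [Perm.mul_apply, hg2, S, E, s, fib, Equiv.prodShear_apply, Equiv.refl_apply,
          if_true, Equiv.prodCongr_apply, Prod.map, Equiv.coe_addRight]
        by_cases hi : 0 ≤ i
        · have h1 : (0 : ℤ) ≤ i + 1 := by omega
          have h2 : ¬ (i + 1 = 0) := by omega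
          simp [hi, h1, h2]
        · by_cases hi2 : i + 1 = 0
          · have h1 : (0 : ℤ) ≤ i + 1 := by omega
            simp [hi, hi2]
          · have h1 : ¬ (0 : ℤ) ≤ i + 1 := by omega
            simp [hi, hi2, h1]
      · have h1 : (g (m, i, k)).1 ≠ n := by
          intro hcon
          have h2 : g (m, i, k) = (n, (g (m, i, k)).2) := by rw [← hcon]
          obtain ⟨g2, hg3⟩ : ∃ y, g (n, y) = (n, (g (m, i, k)).2) := by
            refine ⟨(fib (fun i : ℤ => if 0 ≤ i then f else 1)).symm (g (m, i, k)).2, ?_⟩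
            rw [hg2, Equiv.apply_symm_apply]
          rw [← h2] at hg3
          have := g.injective hg3
          exact hm (congrArg Prod.fst this).symm
        have h2 : S (m, i, k) = (m, i, k) := by
          simp [S, fib, hm]
        simp only [Perm.mul_apply]
        rw [h2]
        have h3 : ∀ y : ℕ × (ℤ × ℕ), y.1 ≠ n → S y = y := by
          intro y hy
          simp [S, fib, hy]
        have h4 : ∀ y : ℕ × (ℤ × ℕ), y.1 ≠ n → E f y = y := by
          intro y hy
          simp [E, fib, hy]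
        rw [h3 _ h1, h4 _ h1]
    rw [hEq]
    have h5 := hl.mul (g * S * g⁻¹) S⁻¹
    have h6 := hl.mul (g * S) g⁻¹
    have h7 := hl.mul g S
    rw [hl.inv] at h5 h6
    linarith
  -- the set of the fixed points
  let A : Set (ℕ × (ℤ × ℕ)) := {x | ¬ (x.1 = n ∧ x.2.1 = 0)}
  have hbdA : BddFix l A := by
    refine ⟨2 * n + 2 * l S, fun g hg => ?_⟩
    -- `g = E f`
    have h1 : ∀ k : ℕ, (g (n, 0, k)).1 = n ∧ (g (n, 0, k)).2.1 = 0 := by
      intro k
      by_contra hcon
      have h2 : g (g (n, 0, k)) = g (n, 0, k) := hg _ hcon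
      have h3 := g.injective h2
      rw [h3] at hcon
      exact hcon ⟨rfl, rfl⟩
    have h1' : ∀ k : ℕ, (g⁻¹ (n, 0, k)).1 = n ∧ (g⁻¹ (n, 0, k)).2.1 = 0 := by
      intro k
      by_contra hcon
      have h2 : g (g⁻¹ (n, 0, k)) = g⁻¹ (n, 0, k) := hg _ hcon
      have h4 : g (g⁻¹ (n, 0, k)) = (n, 0, k) := by simp
      rw [h4] at h2
      rw [← h2] at hcon
      exact hcon ⟨rfl, rfl⟩
    let f : Perm ℕ :=
      { toFun := fun k => (g (n, 0, k)).2.2
        invFun := fun k => (g⁻¹ (n, 0, k)).2.2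
        left_inv := by
          intro k
          have h2 := h1 k
          have h3 : ((n : ℕ), (0 : ℤ), (g (n, 0, k)).2.2) = g (n, 0, k) := by
            exact Prod.ext h2.1.symm (Prod.ext h2.2.symm rfl)
          simp only
          rw [h3]
          simp
        right_inv := by
          intro k
          have h2 := h1' k
          have h3 : ((n : ℕ), (0 : ℤ), (g⁻¹ (n, 0, k)).2.2) = g⁻¹ (n, 0, k) :=
            Prod.ext h2.1.symm (Prod.ext h2.2.symm rfl)
          simp only
          rw [h3]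
          simp }
    have h2 : g = E f := by
      ext1 x
      obtain ⟨m, i, k⟩ := x
      by_cases hm : m = n
      · by_cases hi : i = 0
        · subst hm hi
          have h2 := h1 k
          ext <;> simp [E, fib, f, h2.1, h2.2]
        · rw [hg _ (by simp [A, hi])]
          simp [E, fib, hm, hi]
      · rw [hg _ (by simp [A, hm])]
        simp [E, fib, hm]
    rw [h2]
    exact hE f
  have hAinf : A.Infinite := by
    have : (Set.range fun k : ℕ => ((n : ℕ), (1 : ℤ), k)).Infinite := by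
      apply Set.infinite_range_of_injective
      intro a b hab
      simpa using hab
    refine this.mono ?_
    rintro _ ⟨k, rfl⟩
    simp [A]
  have hAcinf : Aᶜ.Infinite := by
    have : (Set.range fun k : ℕ => ((n : ℕ), (0 : ℤ), k)).Infinite := by
      apply Set.infinite_range_of_injective
      intro a b hab
      simpa using hab
    refine this.mono ?_
    rintro _ ⟨k, rfl⟩
    simp [A]
  -- two disjoint moieties
  let B1 : Set (ℕ × (ℤ × ℕ)) := {x | x.1 = 0}
  let B2 : Set (ℕ × (ℤ × ℕ)) := {x | x.1 = 1}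
  have hinf : ∀ m : ℕ, (Set.range fun k : ℕ => ((m : ℕ), (0 : ℤ), k)).Infinite := by
    intro m
    apply Set.infinite_range_of_injective
    intro a b hab
    simpa using hab
  have hB1 : B1.Infinite := (hinf 0).mono (by rintro _ ⟨k, rfl⟩; rfl)
  have hB2 : B2.Infinite := (hinf 1).mono (by rintro _ ⟨k, rfl⟩; rfl)
  have hB1c : B1ᶜ.Infinite := (hinf 1).mono (by rintro _ ⟨k, rfl⟩; simp [B1])
  have hB2c : B2ᶜ.Infinite := (hinf 0).mono (by rintro _ ⟨k, rfl⟩; simp [B2])
  have hBc : (B1 ∪ B2)ᶜ.Infinite := (hinf 2).mono (by rintro _ ⟨k, rfl⟩; simp [B1, B2])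
  refine bdd_of_bddFix hl (hbdA.transfer hl hAinf hAcinf hB1 hB1c)
    (hbdA.transfer hl hAinf hAcinf hB2 hB2c) ?_ hB1 hB2 hBc
  rw [Set.disjoint_left]
  intro x hx hx'
  have h1 : x.1 = 0 := hx
  have h2 : x.1 = 1 := hx'
  omega

/-- Length functions on the symmetric group of a countable infinite set are bounded (Bergman). -/
theorem bergman {Ω : Type*} [Countable Ω] [Infinite Ω] {l : Perm Ω → ℝ} (hl : LenFn l) :
    ∃ M : ℝ, ∀ g, l g ≤ M := by
  obtain ⟨e⟩ := nonempty_equiv_of_countable (α := ℕ × (ℤ × ℕ)) (β := Ω)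
  let φ : Perm (ℕ × (ℤ × ℕ)) ≃* Perm Ω := e.permCongrHom
  have hl' : LenFn (fun g => l (φ g)) := by
    refine ⟨by simp [hl.one], fun g => by simp [hl.inv], fun g h => by simp [hl.mul]⟩
  obtain ⟨M, hM⟩ := bergman_aux hl'
  refine ⟨M, fun g => ?_⟩
  have := hM (φ.symm g)
  simpa using this

end Pool.Agent.J4.H8.QP
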