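import Mathlib
import Pool.Agent.J4.H8.QP.Bergman

/-!
# The group of the permutations of `ℤ` which are translations near `-∞`
-/

set_option autoImplicit false

namespace Pool.Agent.J4.H8.QP

open Equiv Pointwise

/-- The group of the pairs `(σ, c)`, where `σ` is a permutation of `ℤ` with `σ i = i + c` for all `i`
near `-∞`. -/
def GG : Subgroup (Perm ℤ × Multiplicative ℤ) where
  carrier := {p | ∃ m : ℤ, ∀ i < m, p.1 i = i + p.2.toAdd}
  one_mem' := ⟨0, fun i _ => by simp⟩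
  mul_mem' := by
    rintro ⟨σ, c⟩ ⟨τ, d⟩ ⟨m, hm⟩ ⟨k, hk⟩
    refine ⟨min k (m - d.toAdd), fun i hi => ?_⟩
    have h1 : i < k := lt_of_lt_of_le hi (min_le_left _ _)
    have h2 : i < m - d.toAdd := lt_of_lt_of_le hi (min_le_right _ _)
    simp only [Prod.fst_mul, Prod.snd_mul, Perm.mul_apply, toAdd_mul]
    have h3 := hk i h1
    simp only at h3
    rw [h3]
    have h4 := hm (i + d.toAdd) (by linarith)
    simp only at h4
    rw [h4]
    ring
  inv_mem' := by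
    rintro ⟨σ, c⟩ ⟨m, hm⟩
    refine ⟨m + c.toAdd, fun i hi => ?_⟩
    simp only [Prod.fst_inv, Prod.snd_inv, toAdd_inv]
    have h3 := hm (i - c.toAdd) (by linarith)
    simp only at h3
    rw [Perm.inv_eq_iff_eq, ← sub_eq_add_neg, h3]
    ring

/-- the permutation -/
def ap (g : GG) : Perm ℤ := g.1.1

/-- the translation number near `-∞` -/
def cc (g : GG) : ℤ := (g.1.2).toAdd

@[simp] theorem ap_one : ap 1 = 1 := rfl
@[simp] theorem ap_mul (g h : GG) : ap (g * h) = ap g * ap h := rfl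
@[simp] theorem ap_inv (g : GG) : ap g⁻¹ = (ap g)⁻¹ := rfl
@[simp] theorem cc_one : cc 1 = 0 := rfl
@[simp] theorem cc_mul (g h : GG) : cc (g * h) = cc g + cc h := rfl
@[simp] theorem cc_inv (g : GG) : cc g⁻¹ = - cc g := rfl

theorem ext_GG {g h : GG} (h1 : ∀ i, ap g i = ap h i) (h2 : cc g = cc h) : g = h := by
  apply Subtype.ext
  apply Prod.ext
  · exact Equiv.ext h1
  · exact Multiplicative.toAdd.injective h2

theorem near (g : GG) : ∃ m : ℤ, ∀ i < m, ap g i = i + cc g := g.2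

/-- the translation by one -/
def tt : GG := ⟨(Equiv.addRight 1, Multiplicative.ofAdd 1), 0, fun i _ => by simp⟩

@[simp] theorem ap_tt (i : ℤ) : ap tt i = i + 1 := rfl
@[simp] theorem cc_tt : cc tt = 1 := rfl

@[simp] theorem cc_pow (g : GG) (n : ℕ) : cc (g ^ n) = n * cc g := by
  induction n with
  | zero => simp
  | succ n ih => rw [pow_succ, cc_mul, ih]; push_cast; ring

@[simp] theorem cc_zpow (g : GG) (n : ℤ) : cc (g ^ n) = n * cc g := by
  obtain ⟨k, rfl | rfl⟩ := n.eq_nat_or_neg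
  · rw [zpow_natCast, cc_pow]
  · rw [zpow_neg, cc_inv, zpow_natCast, cc_pow]; ring

@[simp] theorem ap_tt_pow (n : ℕ) (i : ℤ) : ap (tt ^ n) i = i + n := by
  induction n generalizing i with
  | zero => simp
  | succ n ih => rw [pow_succ', ap_mul, Perm.mul_apply, ih]; simp; ring

@[simp] theorem ap_tt_pow_inv (n : ℕ) (i : ℤ) : (ap (tt ^ n))⁻¹ i = i - n := by
  rw [Perm.inv_eq_iff_eq]
  simp

@[simp] theorem ap_tt_zpow (n : ℤ) (i : ℤ) : ap (tt ^ n) i = i + n := by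
  obtain ⟨k, rfl | rfl⟩ := n.eq_nat_or_neg
  · rw [zpow_natCast, ap_tt_pow]
  · rw [zpow_neg, ap_inv, zpow_natCast, ap_tt_pow_inv]; ring

@[simp] theorem ap_tt_zpow_inv (n : ℤ) (i : ℤ) : (ap (tt ^ n))⁻¹ i = i - n := by
  rw [Perm.inv_eq_iff_eq]
  simp

/-- the permutations which fix all points `i < m` -/
def P (m : ℤ) : Subgroup GG where
  carrier := {g | cc g = 0 ∧ ∀ i < m, ap g i = i}
  one_mem' := ⟨rfl, fun _ _ => rfl⟩
  mul_mem' := by
    rintro g h ⟨h1, h2⟩ ⟨h3, h4⟩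
    refine ⟨by simp [h1, h3], fun i hi => ?_⟩
    rw [ap_mul, Perm.mul_apply, h4 i hi, h2 i hi]
  inv_mem' := by
    rintro g ⟨h1, h2⟩
    refine ⟨by simp [h1], fun i hi => ?_⟩
    rw [ap_inv, Perm.inv_eq_iff_eq, h2 i hi]

theorem mem_P {m : ℤ} {g : GG} : g ∈ P m ↔ cc g = 0 ∧ ∀ i < m, ap g i = i := Iff.rfl

theorem P_anti {m n : ℤ} (h : m ≤ n) : P n ≤ P m := fun _ hg =>
  ⟨hg.1, fun i hi => hg.2 i (lt_of_lt_of_le hi h)⟩

theorem exists_mem_P {g : GG} (h : cc g = 0) : ∃ m : ℤ, g ∈ P m := by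
  obtain ⟨m, hm⟩ := near g
  exact ⟨m, h, fun i hi => by rw [hm i hi, h, add_zero]⟩

theorem exists_mem_P_neg {g : GG} (h : cc g = 0) : ∃ m : ℕ, g ∈ P (-(m : ℤ)) := by
  obtain ⟨m, hm⟩ := exists_mem_P h
  exact ⟨m.natAbs, P_anti (by omega) hm⟩

theorem conj_mem {m : ℤ} {g : GG} (hg : g ∈ P m) (k : ℤ) :
    tt ^ k * g * (tt ^ k)⁻¹ ∈ P (m + k) := by
  refine ⟨by simp [hg.1], fun i hi => ?_⟩
  simp only [ap_mul, ap_inv, Perm.mul_apply, ap_tt_zpow_inv, ap_tt_zpow]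
  rw [hg.2 (i - k) (by linarith)]
  ring

theorem conj_mem_nat {m : ℤ} {g : GG} (hg : g ∈ P m) (k : ℕ) :
    tt ^ k * g * (tt ^ k)⁻¹ ∈ P (m + k) := by
  have := conj_mem hg k
  rwa [zpow_natCast] at this

theorem conj_mem_iff {m : ℤ} {g : GG} (k : ℕ) :
    tt ^ k * g * (tt ^ k)⁻¹ ∈ P (m + k) ↔ g ∈ P m := by
  refine ⟨fun h => ?_, fun h => conj_mem_nat h k⟩
  have h1 := conj_mem h (-k)
  have e : tt ^ (-(k : ℤ)) * (tt ^ k * g * (tt ^ k)⁻¹) * (tt ^ (-(k : ℤ)))⁻¹ = g := by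
    rw [zpow_neg, zpow_natCast]
    group
  rw [e] at h1
  have e2 : m + k + -(k : ℤ) = m := by ring
  rwa [e2] at h1

/-! ### The Bergman property -/

/-- the embedding of `Perm ℕ` -/
noncomputable def emb (f : Perm ℕ) : GG := by
  classical
  exact ⟨((f.extendDomain (p := fun i : ℤ => 0 ≤ i)
    { toFun := fun n => ⟨(n : ℤ), Int.natCast_nonneg n⟩
      invFun := fun i => i.1.toNat
      left_inv := fun n => by simp
      right_inv := fun i => by
        apply Subtype.ext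
        simp only
        exact Int.toNat_of_nonneg i.2 } : Perm ℤ), (1 : Multiplicative ℤ)), 0, fun i hi => by
      simp only [toAdd_one, add_zero]
      rw [Perm.extendDomain_apply_not_subtype]
      exact not_le.2 hi⟩

theorem emb_nat (f : Perm ℕ) (n : ℕ) : ap (emb f) n = f n := by
  classical
  have := Perm.extendDomain_apply_subtype (p := fun i : ℤ => 0 ≤ i) f
    { toFun := fun n => ⟨(n : ℤ), Int.natCast_nonneg n⟩
      invFun := fun i => i.1.toNat
      left_inv := fun n => by simp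
      right_inv := fun i => by
        apply Subtype.ext
        simp only
        exact Int.toNat_of_nonneg i.2 } (b := (n : ℤ)) (Int.natCast_nonneg n)
  simp only [emb, ap]
  rw [this]
  simp

theorem emb_neg (f : Perm ℕ) (i : ℤ) (hi : i < 0) : ap (emb f) i = i := by
  classical
  simp only [emb, ap]
  rw [Perm.extendDomain_apply_not_subtype]
  exact not_le.2 hi

theorem cc_emb (f : Perm ℕ) : cc (emb f) = 0 := rfl

theorem emb_one : emb 1 = 1 := by
  refine ext_GG (fun i => ?_) rfl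
  rcases lt_or_ge i 0 with hi | hi
  · rw [emb_neg _ _ hi]; rfl
  · obtain ⟨n, rfl⟩ := Int.eq_ofNat_of_zero_le hi
    rw [emb_nat]; rfl

theorem emb_mul (f g : Perm ℕ) : emb (f * g) = emb f * emb g := by
  refine ext_GG (fun i => ?_) rfl
  rw [ap_mul, Perm.mul_apply]
  rcases lt_or_ge i 0 with hi | hi
  · rw [emb_neg _ _ hi, emb_neg _ _ hi, emb_neg _ _ hi]
  · obtain ⟨n, rfl⟩ := Int.eq_ofNat_of_zero_le hi
    rw [emb_nat, emb_nat, emb_nat]; rfl

theorem exists_emb {g : GG} (hg : g ∈ P 0) : ∃ f : Perm ℕ, emb f = g := by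
  have h1 : ∀ n : ℕ, 0 ≤ ap g n := by
    intro n
    by_contra hcon
    push Not at hcon
    have h2 := hg.2 _ hcon
    have h3 := (ap g).injective h2
    omega
  have h1' : ∀ n : ℕ, 0 ≤ (ap g)⁻¹ n := by
    intro n
    by_contra hcon
    push Not at hcon
    have h2 := hg.2 _ hcon
    have h3 : ap g ((ap g)⁻¹ (n : ℤ)) = n := by simp
    omega
  refine ⟨{ toFun := fun n => (ap g n).toNat
            invFun := fun n => ((ap g)⁻¹ n).toNat
            left_inv := fun n => ?_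
            right_inv := fun n => ?_ }, ?_⟩
  · simp only
    rw [Int.toNat_of_nonneg (h1 n)]
    simp
  · simp only
    rw [Int.toNat_of_nonneg (h1' n)]
    simp
  · refine ext_GG (fun i => ?_) hg.1.symm
    rcases lt_or_ge i 0 with hi | hi
    · rw [emb_neg _ _ hi, hg.2 i hi]
    · obtain ⟨n, rfl⟩ := Int.eq_ofNat_of_zero_le hi
      rw [emb_nat]
      simp only [Equiv.coe_fn_mk]
      exact Int.toNat_of_nonneg (h1 n)

theorem bdd_P0 {l : GG → ℝ} (hl : LenFn l) : ∃ M : ℝ, ∀ g ∈ P 0, l g ≤ M := by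
  have h1 : LenFn (fun f : Perm ℕ => l (emb f)) := by
    refine ⟨by simp only [emb_one, hl.one], fun f => ?_, fun f g => ?_⟩
    · change l (emb f⁻¹) = l (emb f)
      rw [← hl.inv (emb f)]
      have : emb f⁻¹ = (emb f)⁻¹ := by
        rw [eq_inv_iff_mul_eq_one, ← emb_mul, inv_mul_cancel, emb_one]
      rw [this]
    · rw [emb_mul]
      exact hl.mul _ _
  obtain ⟨M, hM⟩ := bergman h1
  refine ⟨M, fun g hg => ?_⟩
  obtain ⟨f, rfl⟩ := exists_emb hg
  exact hM f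

theorem bdd_P {l : GG → ℝ} (hl : LenFn l) (m : ℤ) : ∃ M : ℝ, ∀ g ∈ P m, l g ≤ M := by
  obtain ⟨M, hM⟩ := bdd_P0 hl
  refine ⟨M + 2 * l (tt ^ (-m)), fun g hg => ?_⟩
  have h1 := conj_mem hg (-m)
  rw [add_neg_cancel] at h1
  have h2 := hM _ h1
  have h3 := hl.mul ((tt ^ (-m))⁻¹ * (tt ^ (-m) * g * (tt ^ (-m))⁻¹)) (tt ^ (-m))
  have h4 := hl.mul (tt ^ (-m))⁻¹ (tt ^ (-m) * g * (tt ^ (-m))⁻¹)
  rw [hl.inv] at h4
  have e : (tt ^ (-m))⁻¹ * (tt ^ (-m) * g * (tt ^ (-m))⁻¹) * tt ^ (-m) = g := by group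
  rw [e] at h3
  linarith

end Pool.Agent.J4.H8.QP
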