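import Mathlib
import Pool.Agent.J4.H8.QP.Grp

/-!
# Words in elements which move a point near `-∞`
-/

set_option autoImplicit false

namespace Pool.Agent.J4.H8.QP

open Equiv Pointwise

/-- the transposition of two integers -/
noncomputable def swp (p q : ℤ) : GG :=
  ⟨(Equiv.swap p q, 1), min p q, fun i hi => by
    have h1 : i < p := lt_of_lt_of_le hi (min_le_left _ _)
    have h2 : i < q := lt_of_lt_of_le hi (min_le_right _ _)
    simp only [toAdd_one, add_zero]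
    exact Equiv.swap_apply_of_ne_of_ne h1.ne h2.ne⟩

theorem ap_swp (p q : ℤ) : ap (swp p q) = Equiv.swap p q := rfl

theorem swp_mem {p q n : ℤ} (hp : n ≤ p) (hq : n ≤ q) : swp p q ∈ P n :=
  ⟨rfl, fun i hi => by
    rw [ap_swp]
    exact Equiv.swap_apply_of_ne_of_ne (by omega) (by omega)⟩

theorem P_le_apply {m : ℤ} {g : GG} (hg : g ∈ P m) {i : ℤ} (hi : m ≤ i) : m ≤ ap g i := by
  by_contra hcon
  push Not at hcon
  have h2 := hg.2 _ hcon
  have h3 := (ap g).injective h2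
  omega

section
variable {B : Set GG} (h1 : (1 : GG) ∈ B) (hinv : ∀ g ∈ B, g⁻¹ ∈ B)
  (hα : ∀ g ∈ B, ∀ k : ℕ, tt ^ k * g * (tt ^ k)⁻¹ ∈ B) {n : ℤ} (hn : ∀ g ∈ P n, g ∈ B)
  {m : ℤ} {x : GG} (hx : x ∈ B) (hxP : x ∈ P m) (hxm : ap x m ≠ m)

include hinv in
theorem inv_mem_pow {k : ℕ} {g : GG} (hg : g ∈ B ^ k) : g⁻¹ ∈ B ^ k := by
  have hB : B⁻¹ ⊆ B := fun g hg => by
    have := hinv _ hg
    rwa [inv_inv] at this
  have h2 : g⁻¹ ∈ (B ^ k)⁻¹ := by rwa [Set.inv_mem_inv]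
  rw [← inv_pow] at h2
  exact Set.pow_subset_pow_left hB h2

include h1 hα hx hxP hxm in
theorem exit_word (d : ℕ) : ∀ i : ℤ, m ≤ i → n ≤ i + d →
    ∃ v ∈ B ^ d, v ∈ P i ∧ n ≤ ap v i := by
  induction d with
  | zero =>
    intro i hi hd
    exact ⟨1, by simp, one_mem _, by simpa using hd⟩
  | succ d ih =>
    intro i hi hd
    rcases le_or_gt n i with hni | hni
    · exact ⟨1, Set.one_mem_pow h1, one_mem _, by simpa using hni⟩
    · -- the element `y_i`
      obtain ⟨k, hk⟩ := Int.eq_ofNat_of_zero_le (sub_nonneg.2 hi)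
      have hik : i = m + k := by
        have : i - m = (k : ℤ) := hk
        omega
      set y := tt ^ k * x * (tt ^ k)⁻¹ with hy
      have hyB : y ∈ B := hα x hx k
      have hyP : y ∈ P i := by rw [hik]; exact conj_mem_nat hxP k
      have hyi : i + 1 ≤ ap y i := by
        have e : ap y i = ap x m + k := by
          simp only [hy, ap_mul, ap_inv, Perm.mul_apply, ap_tt_pow_inv, ap_tt_pow]
          rw [hik]
          congr 2
          ring
        have h2 := P_le_apply hxP le_rfl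
        omega
      obtain ⟨v, hv1, hv2, hv3⟩ := ih (ap y i) (by omega) (by push_cast at hd; omega)
      refine ⟨v * y, ?_, mul_mem (P_anti (by omega) hv2) hyP, hv3⟩
      rw [pow_succ]
      exact Set.mul_mem_mul hv1 hyB

include h1 hinv hα hn hx hxP hxm in
theorem coset_word {r : ℕ} (hr : n ≤ m + r) {i : ℤ} (hi : m ≤ i) {h : GG} (hh : h ∈ P i) :
    ∃ v ∈ B ^ (2 * r + 1), v ∈ P i ∧ ap v i = ap h i := by
  obtain ⟨v, hv1, hv2, hv3⟩ := exit_word h1 hα hx hxP hxm (n := n) r i hi (by omega)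
  have hj : i ≤ ap h i := P_le_apply hh le_rfl
  obtain ⟨w, hw1, hw2, hw3⟩ := exit_word h1 hα hx hxP hxm (n := n) r (ap h i) (by omega) (by omega)
  refine ⟨w⁻¹ * swp (ap v i) (ap w (ap h i)) * v, ?_, ?_, ?_⟩
  · have e : 2 * r + 1 = r + 1 + r := by ring
    rw [e, pow_add, pow_add, pow_one]
    exact Set.mul_mem_mul (Set.mul_mem_mul (inv_mem_pow hinv hw1) (hn _ (swp_mem hv3 hw3))) hv1
  · have h3 : n ≤ ap v i := hv3
    rcases le_or_gt i n with hin | hin
    · exact mul_mem (mul_mem (inv_mem (P_anti hj hw2)) (P_anti hin (swp_mem hv3 hw3))) hv2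
    · refine mul_mem (mul_mem (inv_mem (P_anti hj hw2)) (swp_mem ?_ ?_)) hv2
      · exact P_le_apply hv2 le_rfl
      · exact hj.trans (P_le_apply hw2 le_rfl)
  · simp only [ap_mul, ap_inv, Perm.mul_apply, ap_swp, Equiv.swap_apply_left]
    simp

include h1 hinv hα hn hx hxP hxm in
theorem all_word {r : ℕ} (hr : n ≤ m + r) (e : ℕ) : ∀ i : ℤ, m ≤ i → n ≤ i + e →
    ∀ h ∈ P i, h ∈ B ^ (e * (2 * r + 1) + 1) := by
  induction e with
  | zero =>
    intro i hi he h hh
    simp only [zero_mul, zero_add, pow_one]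
    exact hn _ (P_anti (by simpa using he) hh)
  | succ e ih =>
    intro i hi he h hh
    obtain ⟨v, hv1, hv2, hv3⟩ := coset_word h1 hinv hα hn hx hxP hxm hr hi hh
    have h2 : v⁻¹ * h ∈ P (i + 1) := by
      have h3 : v⁻¹ * h ∈ P i := mul_mem (inv_mem hv2) hh
      refine ⟨h3.1, fun j hj => ?_⟩
      rcases lt_or_ge j i with hji | hji
      · exact h3.2 j hji
      · have : j = i := by omega
        subst this
        simp only [ap_mul, ap_inv, Perm.mul_apply]
        rw [← hv3]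
        simp
    have h3 := ih (i + 1) (by omega) (by push_cast at he; omega) _ h2
    have h4 : h = v * (v⁻¹ * h) := by group
    have h5 : (e + 1) * (2 * r + 1) + 1 = (2 * r + 1) + (e * (2 * r + 1) + 1) := by ring
    rw [h4, h5, pow_add]
    exact Set.mul_mem_mul hv1 h3

end

/-- Polynomials grow slower than powers of two. -/
theorem growth (n q k0 : ℕ) : ∃ m0 : ℕ, ∀ m : ℕ, m0 ≤ m →
    ∃ j : ℕ, (m + n) * (2 * (m + n) + 1) + 1 ≤ 2 ^ j ∧ q + j * k0 ≤ m := by
  have h1 : Filter.Tendsto (fun i : ℕ => ((i : ℝ) ^ 3 / 2 ^ i)) Filter.atTop (nhds 0) :=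
    tendsto_pow_const_div_const_pow_of_one_lt 3 (by norm_num)
  have h2 : ∀ᶠ i : ℕ in Filter.atTop, ((i : ℝ) ^ 3 / 2 ^ i) < 1 := by
    have := h1.eventually (gt_mem_nhds (show (0 : ℝ) < 1 by norm_num))
    exact this
  obtain ⟨i0, hi0⟩ := Filter.eventually_atTop.1 h2
  set A := q + n + k0 + 1 with hA
  -- take `j = (m - q) / (k0 + 1)`
  refine ⟨q + (k0 + 1) * (i0 + 4 * (A + 1) ^ 2 + 1), fun m hm => ?_⟩
  set j := (m - q) / (k0 + 1) with hj
  have hj1 : i0 + 4 * (A + 1) ^ 2 + 1 ≤ j := by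
    rw [hj, Nat.le_div_iff_mul_le (by omega)]
    have : (i0 + 4 * (A + 1) ^ 2 + 1) * (k0 + 1) = (k0 + 1) * (i0 + 4 * (A + 1) ^ 2 + 1) := by ring
    omega
  have hj2 : j * (k0 + 1) ≤ m - q := Nat.div_mul_le_self _ _
  have hj3 : m - q < (j + 1) * (k0 + 1) := by
    rw [hj, mul_comm]
    exact Nat.lt_mul_div_succ (m - q) (by omega)
  refine ⟨j, ?_, ?_⟩
  · have h3 : m + n + 1 ≤ (A + 1) * j := by
      have h4 : (j + 1) * (k0 + 1) = j * k0 + j + k0 + 1 := by ring
      have h5 : (A + 1) * j = q * j + n * j + k0 * j + j + j := by rw [hA]; ring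
      have h6 : 1 ≤ j := by omega
      have h7 : q ≤ q * j := Nat.le_mul_of_pos_right _ h6
      have h8 : n ≤ n * j := Nat.le_mul_of_pos_right _ h6
      have h9 : j * k0 = k0 * j := by ring
      have h10 : k0 + 1 ≤ j := by nlinarith
      omega
    have h4 : (m + n) * (2 * (m + n) + 1) + 1 ≤ 2 * (m + n + 1) ^ 2 := by nlinarith
    have h5 : (m + n + 1) ^ 2 ≤ ((A + 1) * j) ^ 2 := Nat.pow_le_pow_left h3 2
    have h6 : 2 * ((A + 1) * j) ^ 2 ≤ j ^ 3 := by
      have h7 : 4 * (A + 1) ^ 2 ≤ j := by omega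
      calc 2 * ((A + 1) * j) ^ 2 = 2 * (A + 1) ^ 2 * j ^ 2 := by ring
        _ ≤ (4 * (A + 1) ^ 2) * j ^ 2 := by nlinarith
        _ ≤ j * j ^ 2 := Nat.mul_le_mul_right _ h7
        _ = j ^ 3 := by ring
    have h7 : j ^ 3 ≤ 2 ^ j := by
      have h8 := hi0 j (by omega)
      rw [div_lt_one (by positivity)] at h8
      have h9 : ((j ^ 3 : ℕ) : ℝ) < ((2 ^ j : ℕ) : ℝ) := by
        push_cast
        exact h8
      exact (Nat.cast_lt.1 h9).le
    omega
  · have : j * (k0 + 1) = j * k0 + j := by ring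
    omega

end Pool.Agent.J4.H8.QP
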