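import Mathlib
import Pool.Agent.J4.H8.QP.Words

/-!
# Balls of a focal hyperbolic length function are bounded in the tree
-/

set_option autoImplicit false

namespace Pool.Agent.J4.H8.QP

open Equiv Pointwise

theorem conj_pow_two {k0 : ℕ} {B : Set GG}
    (hB : ∀ g ∈ B, ∀ h ∈ B, tt ^ k0 * (g * h) * (tt ^ k0)⁻¹ ∈ B) (j : ℕ) :
    ∀ g ∈ B ^ (2 ^ j), tt ^ (j * k0) * g * (tt ^ (j * k0))⁻¹ ∈ B := by
  induction j with
  | zero =>
    intro g hg
    simpa using hg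
  | succ j ih =>
    intro g hg
    rw [pow_succ, mul_two, pow_add] at hg
    obtain ⟨u, hu, v, hv, rfl⟩ := hg
    have h1 := hB _ (ih u hu) _ (ih v hv)
    have e : tt ^ ((j + 1) * k0) * (u * v) * (tt ^ ((j + 1) * k0))⁻¹ =
        tt ^ k0 * ((tt ^ (j * k0) * u * (tt ^ (j * k0))⁻¹) *
          (tt ^ (j * k0) * v * (tt ^ (j * k0))⁻¹)) * (tt ^ k0)⁻¹ := by
      have : tt ^ ((j + 1) * k0) = tt ^ k0 * tt ^ (j * k0) := by
        rw [← pow_add]; congr 1; ring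
      rw [this]
      group
    rw [e]
    exact h1

/-- The main theorem on length functions. -/
theorem coarse {l : GG → ℝ} (hl : LenFn l) {δ : ℝ} (h : Hyp l δ) {c : ℝ} (hc : 0 < c)
    (hlin : ∀ n : ℕ, c * n ≤ l (tt ^ n)) (hunb : ¬ ∃ R : ℝ, ∀ g : GG, cc g = 0 → l g ≤ R) (R : ℝ) :
    ∃ m : ℕ, ∀ g : GG, l g ≤ R → |cc g| ≤ m ∧
      (cc g ≤ 0 → g * (tt ^ (cc g))⁻¹ ∈ P (-(m : ℤ))) := by
  obtain ⟨K, C', hK, hC', h1, h2⟩ := contraction hl h tt hc hlin P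
    (fun m g hg n => P_anti (by omega) (conj_mem_nat hg n)) (fun m => bdd_P hl m)
  -- the set `B`
  let B : Set GG := {g | ∃ j : ℕ, ∃ g0 : GG, cc g0 = 0 ∧ l g0 ≤ K ∧ g = tt ^ j * g0 * (tt ^ j)⁻¹}
  have hlK : ∀ g : GG, cc g = 0 → ∀ k : ℕ, l g ≤ 2 * l (tt ^ k) →
      l (tt ^ k * g * (tt ^ k)⁻¹) ≤ K := by
    intro g hg k hk
    obtain ⟨m, hm⟩ := exists_mem_P hg
    exact h1 m g hm k hk
  have hBcc : ∀ g ∈ B, cc g = 0 := by
    rintro _ ⟨j, g0, h3, h4, rfl⟩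
    simp [h3]
  have hBl : ∀ g ∈ B, l g ≤ 2 * K := by
    rintro _ ⟨j, g0, h3, h4, rfl⟩
    by_cases h5 : l g0 ≤ 2 * l (tt ^ j)
    · exact (hlK g0 h3 j h5).trans (by linarith)
    · push Not at h5
      have h6 := hl.mul (tt ^ j * g0) (tt ^ j)⁻¹
      have h7 := hl.mul (tt ^ j) g0
      rw [hl.inv] at h6
      linarith
  have hB0 : ∀ g : GG, cc g = 0 → l g ≤ K → g ∈ B := fun g h3 h4 =>
    ⟨0, g, h3, h4, by simp⟩
  have hB1 : (1 : GG) ∈ B := hB0 1 rfl (by rw [hl.one]; exact hK)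
  have hBinv : ∀ g ∈ B, g⁻¹ ∈ B := by
    rintro _ ⟨j, g0, h3, h4, rfl⟩
    exact ⟨j, g0⁻¹, by simp [h3], by rwa [hl.inv], by group⟩
  have hBα : ∀ g ∈ B, ∀ k : ℕ, tt ^ k * g * (tt ^ k)⁻¹ ∈ B := by
    rintro _ ⟨j, g0, h3, h4, rfl⟩ k
    refine ⟨k + j, g0, h3, h4, ?_⟩
    rw [pow_add]
    group
  have hpow : ∀ R : ℝ, ∃ k : ℕ, R ≤ l (tt ^ k) := by
    intro R
    obtain ⟨k, hk⟩ := exists_nat_ge (R / c)
    refine ⟨k, le_trans ?_ (hlin k)⟩
    rw [div_le_iff₀ hc] at hk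
    linarith
  obtain ⟨k0, hk0⟩ := hpow (2 * K)
  have hBB : ∀ g ∈ B, ∀ h ∈ B, tt ^ k0 * (g * h) * (tt ^ k0)⁻¹ ∈ B := by
    intro g hg g' hg'
    apply hB0
    · simp [hBcc g hg, hBcc g' hg']
    · apply hlK
      · simp [hBcc g hg, hBcc g' hg']
      · have h3 := hl.mul g g'
        have h4 := hBl g hg
        have h5 := hBl g' hg'
        linarith
  -- a deep subgroup is contained in `B`
  obtain ⟨n, hn⟩ : ∃ n : ℕ, ∀ g ∈ P n, g ∈ B := by
    obtain ⟨M, hM⟩ := bdd_P hl 0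
    obtain ⟨k, hk⟩ := hpow (M / 2)
    refine ⟨k, fun g hg => ?_⟩
    have h3 : tt ^ (-(k : ℤ)) * g * (tt ^ (-(k : ℤ)))⁻¹ ∈ P 0 := by
      have := conj_mem hg (-(k : ℤ))
      simpa using this
    have h4 := hM _ h3
    have h5 := hlK _ h3.1 k (by linarith)
    have e : tt ^ k * (tt ^ (-(k : ℤ)) * g * (tt ^ (-(k : ℤ)))⁻¹) * (tt ^ k)⁻¹ = g := by
      rw [zpow_neg, zpow_natCast]
      group
    rw [e] at h5
    exact hB0 g hg.1 h5
  -- elements of `B` cannot move points near `-∞`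
  obtain ⟨m0, hm0⟩ : ∃ m0 : ℕ, ∀ x ∈ B, ∀ m : ℕ, m0 ≤ m → x ∈ P (-(m : ℤ)) →
      ap x (-(m : ℤ)) = -(m : ℤ) := by
    by_contra hcon
    push Not at hcon
    apply hunb
    refine ⟨2 * K, fun g hg => ?_⟩
    obtain ⟨q, hq⟩ := exists_mem_P_neg hg
    obtain ⟨m1, hm1⟩ := growth n q k0
    obtain ⟨x, hx, m, hm, hxP, hxm⟩ := hcon m1
    obtain ⟨j, hj1, hj2⟩ := hm1 m hm
    apply hBl
    have h3 : tt ^ (-((j * k0 : ℕ) : ℤ)) * g * (tt ^ (-((j * k0 : ℕ) : ℤ)))⁻¹ ∈ P (-(m : ℤ)) := by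
      refine P_anti ?_ (conj_mem hq (-((j * k0 : ℕ) : ℤ)))
      omega
    have h4 := all_word hB1 hBinv hBα (n := (n : ℤ)) hn hx hxP hxm (r := m + n) (by push_cast; omega)
      (m + n) (-(m : ℤ)) le_rfl (by push_cast; omega) _ h3
    have h5 := conj_pow_two hBB j _ (Set.pow_subset_pow_right hB1 hj1 h4)
    have e : tt ^ (j * k0) * (tt ^ (-((j * k0 : ℕ) : ℤ)) * g * (tt ^ (-((j * k0 : ℕ) : ℤ)))⁻¹) *
        (tt ^ (j * k0))⁻¹ = g := by
      rw [zpow_neg, zpow_natCast]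
      group
    rwa [e] at h5
  have hBP : ∀ x ∈ B, x ∈ P (-(m0 : ℤ)) := by
    intro x hx
    obtain ⟨q, hq⟩ := exists_mem_P_neg (hBcc x hx)
    have h3 : ∀ d : ℕ, x ∈ P (-((m0 + d : ℕ) : ℤ)) → x ∈ P (-(m0 : ℤ)) := by
      intro d
      induction d with
      | zero => intro h; simpa using h
      | succ d ih =>
        intro h4
        apply ih
        have h5 := hm0 x hx (m0 + (d + 1)) (by omega) h4
        refine ⟨h4.1, fun i hi => ?_⟩
        rcases lt_or_ge i (-((m0 + (d + 1) : ℕ) : ℤ)) with h6 | h6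
        · exact h4.2 i h6
        · have h7 : i = -((m0 + (d + 1) : ℕ) : ℤ) := by push_cast at hi h6 ⊢; omega
          rw [h7, h5]
    exact h3 q (P_anti (by push_cast; omega) hq)
  -- conclusion for elements with nonpositive translation number
  obtain ⟨N1, hN1⟩ := exists_nat_ge ((|R| + C') / c)
  obtain ⟨k1, hk1⟩ := hpow ((2 * |R| + C') / 2)
  have hneg : ∀ g : GG, l g ≤ |R| → cc g ≤ 0 → |cc g| ≤ N1 ∧
      g * (tt ^ (cc g))⁻¹ ∈ P (-((m0 + k1 : ℕ) : ℤ)) := by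
    intro g hg hcg
    obtain ⟨k, hk⟩ := Int.eq_ofNat_of_zero_le (neg_nonneg.2 hcg)
    have hk' : cc g = -(k : ℤ) := by
      have : -cc g = (k : ℤ) := hk
      omega
    have hg0 : cc (g * (tt ^ (cc g))⁻¹) = 0 := by simp
    have e1 : (tt ^ (cc g))⁻¹ = tt ^ k := by
      rw [hk', zpow_neg, zpow_natCast, inv_inv]
    obtain ⟨m, hm⟩ := exists_mem_P hg0
    have h3 := h2 m _ hm k
    rw [e1] at h3 hg0 ⊢
    rw [mul_inv_cancel_right] at h3
    constructor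
    · have h4 := hlin k
      have h5 : (k : ℝ) ≤ N1 := by
        refine le_trans ?_ hN1
        rw [le_div_iff₀ hc]
        linarith
      rw [hk', abs_neg, Nat.abs_cast]
      exact_mod_cast h5
    · have h4 := hl.mul g (tt ^ k)
      have h5 := hlK _ hg0 k1 (by linarith)
      have h6 := hBP _ (hB0 _ (by simp only [cc_mul, cc_inv] at hg0 ⊢; linarith) h5)
      have e2 : (-(m0 : ℤ)) = -((m0 + k1 : ℕ) : ℤ) + k1 := by push_cast; ring
      rw [e2, conj_mem_iff] at h6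
      exact h6
  refine ⟨N1 + (m0 + k1), fun g hg => ?_⟩
  have hg' : l g ≤ |R| := hg.trans (le_abs_self R)
  constructor
  · rcases le_total (cc g) 0 with h3 | h3
    · have := (hneg g hg' h3).1
      push_cast
      omega
    · have := (hneg g⁻¹ (by rwa [hl.inv]) (by simpa using h3)).1
      rw [cc_inv, abs_neg] at this
      push_cast
      omega
  · intro h3
    exact P_anti (by push_cast; omega) (hneg g hg' h3).2

end Pool.Agent.J4.H8.QP
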