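import Mathlib
import Pool.Agent.J4.H8.QP.Coarse

/-!
# The tree
-/

set_option autoImplicit false

namespace Pool.Agent.J4.H8.QP

open Equiv Pointwise

/-! ### Word lengths -/

/-- word length -/
noncomputable def wl {G : Type*} [Group G] (S : Set G) (g : G) : ℕ :=
  sInf {n : ℕ | g ∈ (S ∪ S⁻¹) ^ n}

section
variable {G : Type*} [Group G] {S : Set G}

theorem exists_mem_pow (hS : Subgroup.closure S = ⊤) (g : G) : ∃ n : ℕ, g ∈ (S ∪ S⁻¹) ^ n := by
  have h1 : g ∈ (Subgroup.closure S).toSubmonoid := by rw [hS]; trivial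
  rw [Subgroup.closure_toSubmonoid] at h1
  induction h1 using Submonoid.closure_induction with
  | mem x hx => exact ⟨1, by simpa using hx⟩
  | one => exact ⟨0, by simp⟩
  | mul x y _ _ hx hy =>
    obtain ⟨n, hn⟩ := hx
    obtain ⟨m, hm⟩ := hy
    exact ⟨n + m, by rw [pow_add]; exact Set.mul_mem_mul hn hm⟩

theorem mem_pow_wl (hS : Subgroup.closure S = ⊤) (g : G) : g ∈ (S ∪ S⁻¹) ^ (wl S g) :=
  Nat.sInf_mem (s := {n : ℕ | g ∈ (S ∪ S⁻¹) ^ n}) (exists_mem_pow hS g)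

theorem wl_le {n : ℕ} {g : G} (h : g ∈ (S ∪ S⁻¹) ^ n) : wl S g ≤ n := Nat.sInf_le h

theorem wl_inv_le (hS : Subgroup.closure S = ⊤) (g : G) : wl S g⁻¹ ≤ wl S g := by
  apply wl_le
  have h1 := mem_pow_wl hS g
  have h2 : g⁻¹ ∈ ((S ∪ S⁻¹) ^ (wl S g))⁻¹ := by rwa [Set.inv_mem_inv]
  rw [← inv_pow, Set.union_inv, inv_inv, Set.union_comm] at h2
  exact h2

theorem wl_lenFn (hS : Subgroup.closure S = ⊤) : LenFn (fun g : G => (wl S g : ℝ)) := by
  refine ⟨?_, fun g => ?_, fun g h => ?_⟩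
  · have : wl S (1 : G) ≤ 0 := wl_le (by simp)
    exact_mod_cast Nat.le_zero.1 this
  · have h1 := wl_inv_le hS g
    have h2 := wl_inv_le hS g⁻¹
    rw [inv_inv] at h2
    exact_mod_cast le_antisymm h1 h2
  · have : wl S (g * h) ≤ wl S g + wl S h := by
      apply wl_le
      rw [pow_add]
      exact Set.mul_mem_mul (mem_pow_wl hS g) (mem_pow_wl hS h)
    exact_mod_cast this

end

/-! ### Powers -/

/-- powers of an element with positive translation number -/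
theorem pow_near {g : GG} {m : ℤ} (hm : ∀ i < m, ap g i = i + cc g) (h0 : 0 ≤ cc g) (n : ℕ) :
    ∀ i < m, ap (g ^ n) (i - n * cc g) = i := by
  induction n with
  | zero => intro i _; simp
  | succ n ih =>
    intro i hi
    rw [pow_succ, ap_mul, Perm.mul_apply, hm _ (by
      have : (0 : ℤ) ≤ ((n + 1 : ℕ) : ℤ) * cc g := by positivity
      linarith)]
    have e : i - ((n + 1 : ℕ) : ℤ) * cc g + cc g = i - n * cc g := by push_cast; ring
    rw [e]
    exact ih i hi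

theorem pow_near_neg {g : GG} {m : ℤ} (hm : ∀ i < m, ap g i = i + cc g) (h0 : cc g ≤ 0) (n : ℕ) :
    ∀ i < m, ap (g ^ n) i = i + n * cc g := by
  induction n with
  | zero => intro i _; simp
  | succ n ih =>
    intro i hi
    rw [pow_succ, ap_mul, Perm.mul_apply, hm _ hi, ih _ (by linarith)]
    push_cast
    ring

theorem mul_tt_inv_mem {g : GG} {m : ℤ} (hm : ∀ i < m, ap g i = i + cc g) (h0 : 0 ≤ cc g) (n : ℕ) :
    g ^ n * (tt ^ ((n : ℤ) * cc g))⁻¹ ∈ P m := by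
  refine ⟨by simp, fun i hi => ?_⟩
  rw [ap_mul, Perm.mul_apply, ap_inv, ap_tt_zpow_inv]
  exact pow_near hm h0 n i hi

/-- loxodromic elements have a nonzero translation number -/
theorem cc_ne_zero_of_lox {l : GG → ℝ} (hl : LenFn l) {g : GG} {c : ℝ} (hc : 0 < c)
    (hlin : ∀ n : ℕ, c * n ≤ l (g ^ n)) : cc g ≠ 0 := by
  intro h0
  obtain ⟨m, hm⟩ := exists_mem_P h0
  obtain ⟨M, hM⟩ := bdd_P hl m
  obtain ⟨n, hn⟩ := exists_nat_gt (M / c)
  rw [div_lt_iff₀ hc] at hn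
  have h1 := hM _ (pow_mem hm n)
  have h2 := hlin n
  linarith

theorem lox_tt {l : GG → ℝ} (hl : LenFn l) {g : GG} {c : ℝ} (hc : 0 < c)
    (hlin : ∀ n : ℕ, c * n ≤ l (g ^ n)) : ∃ c' : ℝ, 0 < c' ∧ ∀ n : ℕ, c' * n ≤ l (tt ^ n) := by
  wlog hpos : 0 < cc g generalizing g
  · have h0 := cc_ne_zero_of_lox hl hc hlin
    refine this (g := g⁻¹) (fun n => ?_) ?_
    · rw [inv_pow, hl.inv]
      exact hlin n
    · rw [cc_inv]
      omega
  obtain ⟨k, hk⟩ := Int.eq_ofNat_of_zero_le hpos.le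
  have hk' : cc g = (k : ℤ) := hk
  have hk0 : 0 < k := by omega
  have hk0' : (0 : ℝ) < k := by exact_mod_cast hk0
  obtain ⟨m, hm⟩ := near g
  obtain ⟨M, hM⟩ := bdd_P hl m
  have h1 : ∀ n : ℕ, c * n - M ≤ l (tt ^ (n * k)) := by
    intro n
    have h2 := hM _ (mul_tt_inv_mem hm hpos.le n)
    have h3 := hl.mul (g ^ n * (tt ^ ((n : ℤ) * cc g))⁻¹) (tt ^ ((n : ℤ) * cc g))
    rw [inv_mul_cancel_right] at h3
    have e : tt ^ ((n : ℤ) * cc g) = tt ^ (n * k) := by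
      rw [hk', ← zpow_natCast]
      push_cast
      rfl
    rw [e] at h3 h2
    have := hlin n
    linarith
  refine ⟨c / k, by positivity, fun n => ?_⟩
  by_contra hcon
  push Not at hcon
  have h2 : k * l (tt ^ n) < c * n := by
    have : c / k * n = c * n / k := by ring
    rw [this, lt_div_iff₀ hk0'] at hcon
    linarith
  obtain ⟨j, hj⟩ := exists_nat_gt (M / (c * n - k * l (tt ^ n)))
  rw [div_lt_iff₀ (by linarith)] at hj
  have h3 := h1 (n * j)
  have h4 : l (tt ^ (n * j * k)) ≤ (j * k : ℕ) * l (tt ^ n) := by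
    have := hl.pow_le (tt ^ n) (j * k)
    rwa [← pow_mul, ← mul_assoc] at this
  push_cast at h3 h4
  nlinarith

/-! ### The same end -/

/-- the Gromov product with respect to the base point -/
noncomputable def gpr {G : Type*} [Group G] (l : G → ℝ) (a b : G) : ℝ :=
  (l a + l b - l (a⁻¹ * b)) / 2

/-- `g` and `h` have the same attracting point -/
def SE {G : Type*} [Group G] (l : G → ℝ) (a b : G) : Prop :=
  ∀ K : ℝ, ∃ N : ℕ, ∀ n m : ℕ, N ≤ n → N ≤ m → K ≤ gpr l (a ^ n) (b ^ m)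

theorem l_zpow {l : GG → ℝ} (hl : LenFn l) (z : ℤ) : l (tt ^ z) = l (tt ^ z.natAbs) := by
  obtain ⟨k, rfl | rfl⟩ := z.eq_nat_or_neg
  · rw [zpow_natCast]; simp
  · rw [zpow_neg, zpow_natCast, hl.inv]; simp

theorem same_end_of_bdd {l : GG → ℝ} (hl : LenFn l) {δ : ℝ} (h : Hyp l δ) {c : ℝ} (hc : 0 < c)
    (hlin : ∀ n : ℕ, c * n ≤ l (tt ^ n)) {R : ℝ} (hR : ∀ g : GG, cc g = 0 → l g ≤ R)
    {g g' : GG} (hg : (0 < cc g ∧ 0 < cc g') ∨ (cc g < 0 ∧ cc g' < 0)) : SE l g g' := by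
  obtain ⟨C, hC0, hC⟩ := lox_additive hl h tt hc hlin
  have hR0 : 0 ≤ R := (hl.nonneg 1).trans (hR 1 rfl)
  have hup : ∀ g : GG, l g ≤ l (tt ^ (cc g)) + R := by
    intro g
    have h1 := hR (g * (tt ^ (cc g))⁻¹) (by simp)
    have h2 := hl.mul (g * (tt ^ (cc g))⁻¹) (tt ^ (cc g))
    rw [inv_mul_cancel_right] at h2
    linarith
  have hlow : ∀ g : GG, l (tt ^ (cc g)) - R ≤ l g := by
    intro g
    have h1 := hR (tt ^ (cc g) * g⁻¹) (by simp)
    have h2 := hl.mul (tt ^ (cc g) * g⁻¹) g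
    rw [inv_mul_cancel_right] at h2
    linarith
  -- estimate for powers of `tt`
  have hest : ∀ x y : ℤ, ((0 ≤ x ∧ 0 ≤ y) ∨ (x ≤ 0 ∧ y ≤ 0)) →
      2 * c * (min x.natAbs y.natAbs : ℕ) - C ≤ l (tt ^ x) + l (tt ^ y) - l (tt ^ (-x + y)) := by
    intro x y hxy
    rw [l_zpow hl x, l_zpow hl y, l_zpow hl (-x + y)]
    rcases le_total x.natAbs y.natAbs with h1 | h1
    · rw [min_eq_left h1]
      have e : (-x + y).natAbs = y.natAbs - x.natAbs := by omega
      have h2 := hC x.natAbs (y.natAbs - x.natAbs)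
      have h3 := hlin x.natAbs
      rw [Nat.add_sub_cancel' h1] at h2
      rw [e]
      linarith
    · rw [min_eq_right h1]
      have e : (-x + y).natAbs = x.natAbs - y.natAbs := by omega
      have h2 := hC y.natAbs (x.natAbs - y.natAbs)
      have h3 := hlin y.natAbs
      rw [Nat.add_sub_cancel' h1] at h2
      rw [e]
      linarith
  intro K
  obtain ⟨N, hN⟩ := exists_nat_ge ((2 * |K| + C + 3 * R) / (2 * c))
  refine ⟨N, fun n m hn hm => ?_⟩
  have h1 := hlow (g ^ n)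
  have h2 := hlow (g' ^ m)
  have h3 := hup ((g ^ n)⁻¹ * g' ^ m)
  rw [cc_mul, cc_inv] at h3
  have h4 := hest (cc (g ^ n)) (cc (g' ^ m)) (by
    rw [cc_pow, cc_pow]
    rcases hg with ⟨ha, hb⟩ | ⟨ha, hb⟩
    · left
      exact ⟨by positivity, by positivity⟩
    · right
      exact ⟨mul_nonpos_of_nonneg_of_nonpos (Nat.cast_nonneg n) ha.le,
        mul_nonpos_of_nonneg_of_nonpos (Nat.cast_nonneg m) hb.le⟩)
  have h5 : N ≤ min (cc (g ^ n)).natAbs (cc (g' ^ m)).natAbs := by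
    rw [cc_pow, cc_pow, Int.natAbs_mul, Int.natAbs_mul, Int.natAbs_natCast, Int.natAbs_natCast]
    apply le_min
    · exact hn.trans (Nat.le_mul_of_pos_right _ (by omega))
    · exact hm.trans (Nat.le_mul_of_pos_right _ (by omega))
  have h6 : (N : ℝ) ≤ (min (cc (g ^ n)).natAbs (cc (g' ^ m)).natAbs : ℕ) := by exact_mod_cast h5
  rw [div_le_iff₀ (by positivity)] at hN
  have h7 : (N : ℝ) * (2 * c) ≤ 2 * c * (min (cc (g ^ n)).natAbs (cc (g' ^ m)).natAbs : ℕ) := by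
    have := mul_le_mul_of_nonneg_left h6 (show 0 ≤ 2 * c by positivity)
    linarith
  have h8 := le_abs_self K
  have h9 := abs_nonneg K
  unfold gpr
  linarith

/-! ### The tree metric -/

/-- `p` is at most the height of the confluence of `x` and `y` -/
def Rel (x y : GG) (p : ℤ) : Prop :=
  p ≤ cc x ∧ p ≤ cc y ∧ ∀ j < p, ap x (j - cc x) = ap y (j - cc y)

theorem Rel.symm {x y : GG} {p : ℤ} (h : Rel x y p) : Rel y x p :=
  ⟨h.2.1, h.1, fun j hj => (h.2.2 j hj).symm⟩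

theorem Rel.trans {x y z : GG} {p q : ℤ} (h : Rel x y p) (h' : Rel y z q) :
    Rel x z (min p q) :=
  ⟨(min_le_left _ _).trans h.1, (min_le_right _ _).trans h'.2.1, fun j hj =>
    (h.2.2 j (lt_of_lt_of_le hj (min_le_left _ _))).trans
      (h'.2.2 j (lt_of_lt_of_le hj (min_le_right _ _)))⟩

theorem Rel.left {x y : GG} {p : ℤ} (g : GG) (h : Rel x y p) : Rel (g * x) (g * y) (p + cc g) := by
  refine ⟨by rw [cc_mul]; linarith [h.1], by rw [cc_mul]; linarith [h.2.1], fun j hj => ?_⟩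
  have h1 := h.2.2 (j - cc g) (by linarith)
  rw [cc_mul, cc_mul, ap_mul, ap_mul, Perm.mul_apply, Perm.mul_apply]
  have e1 : j - (cc g + cc x) = j - cc g - cc x := by ring
  have e2 : j - (cc g + cc y) = j - cc g - cc y := by ring
  rw [e1, e2, h1]

theorem exists_rel (x y : GG) : ∃ p, Rel x y p := by
  obtain ⟨m, hm⟩ := near x
  obtain ⟨k, hk⟩ := near y
  refine ⟨min (min (cc x) (cc y)) (min (m + cc x) (k + cc y)), ?_, ?_, fun j hj => ?_⟩
  · exact (min_le_left _ _).trans (min_le_left _ _)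
  · exact (min_le_left _ _).trans (min_le_right _ _)
  · have h1 : j < m + cc x := lt_of_lt_of_le hj ((min_le_right _ _).trans (min_le_left _ _))
    have h2 : j < k + cc y := lt_of_lt_of_le hj ((min_le_right _ _).trans (min_le_right _ _))
    rw [hm _ (by linarith), hk _ (by linarith)]
    ring

/-- the height of the confluence -/
noncomputable def ka (x y : GG) : ℤ := sSup {p | Rel x y p}

theorem rel_ka (x y : GG) : Rel x y (ka x y) :=
  Int.csSup_mem (s := {p | Rel x y p}) (exists_rel x y) ⟨cc x, fun _ hp => hp.1⟩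

theorem le_ka {x y : GG} {p : ℤ} (h : Rel x y p) : p ≤ ka x y :=
  le_csSup (s := {p | Rel x y p}) ⟨cc x, fun _ hp => hp.1⟩ h

theorem ka_symm (x y : GG) : ka x y = ka y x :=
  le_antisymm (le_ka (rel_ka x y).symm) (le_ka (rel_ka y x).symm)

theorem ka_trans (x y z : GG) : min (ka x y) (ka y z) ≤ ka x z :=
  le_ka ((rel_ka x y).trans (rel_ka y z))

theorem ka_left (g x y : GG) : ka (g * x) (g * y) = ka x y + cc g := by
  apply le_antisymm
  · have h1 := le_ka ((rel_ka (g * x) (g * y)).left g⁻¹)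
    rw [inv_mul_cancel_left, inv_mul_cancel_left, cc_inv] at h1
    linarith
  · exact le_ka ((rel_ka x y).left g)

/-- the distance of `g` to `1` in the tree -/
noncomputable def TT (g : GG) : ℤ := cc g - 2 * ka 1 g

theorem TT_dist (x y : GG) : TT (x⁻¹ * y) = cc x + cc y - 2 * ka x y := by
  have h1 := ka_left x⁻¹ x y
  rw [inv_mul_cancel, cc_inv] at h1
  rw [TT, h1, cc_mul, cc_inv]
  ring

theorem TT_mul (x y : GG) : TT (x * y) ≤ TT x + TT y := by
  have h1 := TT_dist x (x * y)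
  rw [inv_mul_cancel_left, cc_mul] at h1
  have h2 := ka_trans 1 x (x * y)
  have h3 := (rel_ka 1 x).2.1
  have h4 := (rel_ka x (x * y)).1
  rw [TT, cc_mul, TT, h1]
  rcases min_le_iff.1 h2 with h5 | h5 <;> linarith

theorem TT_nonneg (g : GG) : |cc g| ≤ TT g := by
  have h1 := rel_ka 1 g
  have h2 := h1.1
  have h3 := h1.2.1
  rw [cc_one] at h2
  rw [TT, abs_le]
  constructor <;> linarith

theorem TT_le {g : GG} {p : ℤ} (h : Rel 1 g p) : TT g ≤ cc g - 2 * p := by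
  have := le_ka h
  rw [TT]
  linarith

/-- the generating set -/
def XX : Set GG := (P 0 : Set GG) ∪ {tt}

theorem TT_gen {g : GG} (hg : g ∈ XX ∪ XX⁻¹) : TT g ≤ 1 := by
  have h1 : ∀ g ∈ P 0, TT g ≤ 1 := by
    intro g hg
    have := TT_le (g := g) (p := 0) ⟨le_rfl, hg.1.ge, fun j hj => by
      rw [hg.1, sub_zero, hg.2 j hj, cc_one, sub_zero]; rfl⟩
    rw [hg.1] at this
    linarith
  rcases hg with (hg | hg) | (hg | hg)
  · exact h1 g hg
  · rw [Set.mem_singleton_iff.1 hg]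
    have := TT_le (g := tt) (p := 0) ⟨le_rfl, by simp, fun j hj => by simp⟩
    rw [cc_tt] at this
    linarith
  · have := h1 _ (inv_mem (show g⁻¹ ∈ P 0 from hg))
    rwa [inv_inv] at this
  · have h2 : g⁻¹ = tt := hg
    have h3 : g = tt⁻¹ := by rw [← h2, inv_inv]
    subst h3
    have := TT_le (g := tt⁻¹) (p := -1) ⟨by simp, by simp, fun j hj => by
      rw [ap_inv, eq_comm, Perm.inv_eq_iff_eq]; simp⟩
    rw [cc_inv, cc_tt] at this
    linarith

theorem TT_one : TT 1 = 0 := by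
  have h1 := TT_nonneg 1
  have h2 := TT_le (g := 1) (p := 0) ⟨le_rfl, le_rfl, fun _ _ => rfl⟩
  rw [cc_one] at h1 h2
  simp at h1
  linarith

theorem TT_le_of_mem_pow {n : ℕ} {g : GG} (hg : g ∈ (XX ∪ XX⁻¹) ^ n) : TT g ≤ n := by
  induction n generalizing g with
  | zero =>
    rw [pow_zero, Set.mem_one] at hg
    rw [hg, TT_one]
    simp
  | succ n ih =>
    rw [pow_succ] at hg
    obtain ⟨u, hu, v, hv, rfl⟩ := hg
    have h1 := TT_mul u v
    have h2 := ih hu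
    have h3 := TT_gen hv
    push_cast

    linarith

theorem mem_pow_of_TT (g : GG) : g ∈ (XX ∪ XX⁻¹) ^ (TT g + 1).toNat := by
  have h1 := rel_ka 1 g
  have h2 := h1.1
  have h3 := h1.2.1
  rw [cc_one] at h2
  obtain ⟨a, ha⟩ := Int.eq_ofNat_of_zero_le (neg_nonneg.2 h2)
  obtain ⟨b, hb⟩ := Int.eq_ofNat_of_zero_le (sub_nonneg.2 h3)
  have ha' : ka 1 g = -(a : ℤ) := by
    have : -ka 1 g = (a : ℤ) := ha
    linarith
  have hb' : cc g - ka 1 g = (b : ℤ) := hb
  have h4 : tt ^ a * g * (tt ^ b)⁻¹ ∈ P 0 := by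
    refine ⟨?_, fun i hi => ?_⟩
    · simp only [cc_mul, cc_inv, cc_pow, cc_tt]
      linarith
    · have h5 := h1.2.2 (i - a) (by linarith)
      simp only [ap_one, cc_one, sub_zero, Perm.one_apply] at h5
      simp only [ap_mul, ap_inv, Perm.mul_apply, ap_tt_pow_inv, ap_tt_pow]
      have e : i - (b : ℤ) = i - a - cc g := by linarith
      rw [e, ← h5]
      ring
  have h5 : (TT g + 1).toNat = a + 1 + b := by
    rw [TT]
    omega
  have h6 : g = (tt⁻¹) ^ a * (tt ^ a * g * (tt ^ b)⁻¹) * tt ^ b := by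
    rw [inv_pow]
    group
  rw [h5, h6, pow_add, pow_add, pow_one]
  refine Set.mul_mem_mul (Set.mul_mem_mul (Set.pow_mem_pow ?_) (Or.inl (Or.inl h4)))
    (Set.pow_mem_pow ?_)
  · right
    rw [Set.mem_inv, inv_inv]
    right
    rfl
  · left
    right
    rfl

theorem closure_XX : Subgroup.closure XX = ⊤ := by
  rw [eq_top_iff]
  intro g _
  have h1 := mem_pow_of_TT g
  have h2 : ∀ n : ℕ, ∀ g ∈ (XX ∪ XX⁻¹) ^ n, g ∈ Subgroup.closure XX := by
    intro n
    induction n with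
    | zero =>
      intro g hg
      rw [pow_zero, Set.mem_one] at hg
      rw [hg]
      exact one_mem _
    | succ n ih =>
      intro g hg
      rw [pow_succ] at hg
      obtain ⟨u, hu, v, hv, rfl⟩ := hg
      refine mul_mem (ih u hu) ?_
      rcases hv with hv | hv
      · exact Subgroup.subset_closure hv
      · have := inv_mem (Subgroup.subset_closure (show v⁻¹ ∈ XX from hv))
        rwa [inv_inv] at this
  exact h2 _ g h1

theorem TT_le_wl (g : GG) : TT g ≤ wl XX g := TT_le_of_mem_pow (mem_pow_wl closure_XX g)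

theorem wl_le_TT (g : GG) : (wl XX g : ℤ) ≤ TT g + 1 := by
  have h1 : wl XX g ≤ (TT g + 1).toNat := wl_le (mem_pow_of_TT g)
  have h2 : 0 ≤ TT g := (abs_nonneg _).trans (TT_nonneg g)
  omega

/-- the Gromov product of the tree -/
theorem gT (x y : GG) : TT x + TT y - TT (x⁻¹ * y) = 2 * (ka x y - ka 1 x - ka 1 y) := by
  rw [TT_dist, TT, TT]
  ring

theorem four_ka (x y z : GG) :
    min (ka x y - ka 1 x - ka 1 y) (ka y z - ka 1 y - ka 1 z) ≤ ka x z - ka 1 x - ka 1 z := by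
  have a1 := ka_trans 1 x y
  have a2 := ka_trans 1 y x
  have a3 := ka_trans x 1 y
  have b1 := ka_trans 1 y z
  have b2 := ka_trans 1 z y
  have b3 := ka_trans y 1 z
  have c1 := ka_trans 1 x z
  have c2 := ka_trans 1 z x
  have c3 := ka_trans x 1 z
  have d1 := ka_trans x y z
  have d2 := ka_trans y x z
  have d3 := ka_trans x z y
  rw [ka_symm x 1] at a3 c3
  rw [ka_symm y 1] at b3
  rw [ka_symm y x] at a2 d2
  rw [ka_symm z y] at b2 d3
  rw [ka_symm z x] at c2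
  omega

theorem hyp_XX : Hyp (fun g => (wl XX g : ℝ)) (3 / 2) := by
  intro x y z
  have h1 : ∀ a b : GG, 2 * (ka a b - ka 1 a - ka 1 b : ℝ) - 1 ≤
      ((wl XX a : ℝ) + wl XX b - wl XX (a⁻¹ * b)) := by
    intro a b
    have h2 := gT a b
    have h3 := TT_le_wl a
    have h4 := TT_le_wl b
    have h5 := wl_le_TT (a⁻¹ * b)
    have h6 : 2 * (ka a b - ka 1 a - ka 1 b) - 1 ≤
      ((wl XX a : ℤ) + wl XX b - wl XX (a⁻¹ * b)) := by linarith
    exact_mod_cast h6
  have h2 : ∀ a b : GG, ((wl XX a : ℝ) + wl XX b - wl XX (a⁻¹ * b)) ≤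
      2 * (ka a b - ka 1 a - ka 1 b : ℝ) + 2 := by
    intro a b
    have h2 := gT a b
    have h3 := wl_le_TT a
    have h4 := wl_le_TT b
    have h5 := TT_le_wl (a⁻¹ * b)
    have h6 : ((wl XX a : ℤ) + wl XX b - wl XX (a⁻¹ * b)) ≤
      2 * (ka a b - ka 1 a - ka 1 b) + 2 := by linarith
    exact_mod_cast h6
  have h3 := four_ka x y z
  have h4 := h1 x z
  have h5 := h2 x y
  have h6 := h2 y z
  simp only
  rw [sub_le_iff_le_add]
  rcases min_le_iff.1 h3 with h7 | h7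
  · have h8 : (ka x y - ka 1 x - ka 1 y : ℝ) ≤ (ka x z - ka 1 x - ka 1 z : ℝ) := by
      exact_mod_cast h7
    refine (min_le_left _ _).trans ?_
    linarith
  · have h8 : (ka y z - ka 1 y - ka 1 z : ℝ) ≤ (ka x z - ka 1 x - ka 1 z : ℝ) := by
      exact_mod_cast h7
    refine (min_le_right _ _).trans ?_
    linarith

theorem gpr_le (a b : GG) : gpr (fun g => (wl XX g : ℝ)) a b ≤ (ka a b - ka 1 a - ka 1 b : ℝ) + 1 := by
  have h2 := gT a b
  have h3 := wl_le_TT a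
  have h4 := wl_le_TT b
  have h5 := TT_le_wl (a⁻¹ * b)
  have h6 : ((wl XX a : ℤ) + wl XX b - wl XX (a⁻¹ * b)) ≤
    2 * (ka a b - ka 1 a - ka 1 b) + 2 := by linarith
  have h7 : ((wl XX a : ℝ) + wl XX b - wl XX (a⁻¹ * b)) ≤
    2 * (ka a b - ka 1 a - ka 1 b : ℝ) + 2 := by exact_mod_cast h6
  unfold gpr
  linarith

theorem le_gpr (a b : GG) : (ka a b - ka 1 a - ka 1 b : ℝ) - 1 ≤ gpr (fun g => (wl XX g : ℝ)) a b := by
  have h2 := gT a b
  have h3 := TT_le_wl a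
  have h4 := TT_le_wl b
  have h5 := wl_le_TT (a⁻¹ * b)
  have h6 : 2 * (ka a b - ka 1 a - ka 1 b) - 1 ≤
    ((wl XX a : ℤ) + wl XX b - wl XX (a⁻¹ * b)) := by linarith
  have h7 : 2 * (ka a b - ka 1 a - ka 1 b : ℝ) - 1 ≤
    ((wl XX a : ℝ) + wl XX b - wl XX (a⁻¹ * b)) := by exact_mod_cast h6
  unfold gpr
  linarith

theorem lox_XX {g : GG} (hg : cc g ≠ 0) : ∃ c : ℝ, 0 < c ∧ ∀ n : ℕ, c * n ≤ (wl XX (g ^ n) : ℝ) := by
  refine ⟨1, one_pos, fun n => ?_⟩
  have h1 := TT_nonneg (g ^ n)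
  have h2 := TT_le_wl (g ^ n)
  rw [cc_pow, abs_mul, Nat.abs_cast] at h1
  have h3 : 1 ≤ |cc g| := Int.one_le_abs hg
  have h4 : (n : ℤ) ≤ wl XX (g ^ n) := by nlinarith
  have h5 : (n : ℝ) ≤ wl XX (g ^ n) := by exact_mod_cast h4
  linarith

/-- two elements with negative translation numbers have the same attracting point -/
theorem se_XX {g h : GG} (hg : cc g < 0) (hh : cc h < 0) : SE (fun g => (wl XX g : ℝ)) g h := by
  have key : ∀ g : GG, cc g < 0 → ∃ m : ℤ, ∀ n : ℕ, m + n * cc g ≤ ka 1 (g ^ n) ∧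
      ka 1 (g ^ n) ≤ n * cc g := by
    intro g hg
    obtain ⟨m, hm⟩ := near g
    refine ⟨min m 0, fun n => ⟨?_, ?_⟩⟩
    · apply le_ka
      have h0 : (n : ℤ) * cc g ≤ 0 :=
        mul_nonpos_of_nonneg_of_nonpos (Nat.cast_nonneg n) hg.le
      refine ⟨?_, ?_, fun j hj => ?_⟩
      · have := min_le_right m 0
        rw [cc_one]
        linarith
      · have := min_le_right m 0
        rw [cc_pow]
        linarith
      · have h1 : j - n * cc g < m := by
          have := min_le_left m 0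
          linarith
        rw [cc_pow, pow_near_neg hm hg.le n _ h1]
        simp
    · have := (rel_ka 1 (g ^ n)).2.1
      rwa [cc_pow] at this
  obtain ⟨m1, hm1⟩ := key g hg
  obtain ⟨m2, hm2⟩ := key h hh
  intro K
  obtain ⟨N, hN⟩ := exists_nat_ge (|K| + |(m1 : ℝ)| + |(m2 : ℝ)| + 1)
  refine ⟨N, fun n k hn hk => ?_⟩
  have h1 := hm1 n
  have h2 := hm2 k
  have h3 := ka_trans (g ^ n) 1 (h ^ k)
  rw [ka_symm (g ^ n) 1] at h3
  have h4 := le_gpr (g ^ n) (h ^ k)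
  have h5 : (n : ℤ) * cc g ≤ -n := by nlinarith
  have h6 : (k : ℤ) * cc h ≤ -k := by nlinarith
  have h7 : min (m1 + k) (m2 + n) ≤ ka (g ^ n) (h ^ k) - ka 1 (g ^ n) - ka 1 (h ^ k) := by
    rcases min_le_iff.1 h3 with h8 | h8
    · refine (min_le_left _ _).trans ?_
      linarith [h1.1, h1.2, h2.1, h2.2]
    · refine (min_le_right _ _).trans ?_
      linarith [h1.1, h1.2, h2.1, h2.2]
  have hn' : (N : ℝ) ≤ n := by exact_mod_cast hn
  have hk' : (N : ℝ) ≤ k := by exact_mod_cast hk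
  have a1 := neg_abs_le (m1 : ℝ)
  have a2 := neg_abs_le (m2 : ℝ)
  have a3 := le_abs_self K
  have a4 := abs_nonneg (m1 : ℝ)
  have a5 := abs_nonneg (m2 : ℝ)
  rcases min_le_iff.1 h7 with h8 | h8
  · have h9 : (m1 + k : ℝ) ≤ (ka (g ^ n) (h ^ k) - ka 1 (g ^ n) - ka 1 (h ^ k) : ℝ) := by
      exact_mod_cast h8
    linarith
  · have h9 : (m2 + n : ℝ) ≤ (ka (g ^ n) (h ^ k) - ka 1 (g ^ n) - ka 1 (h ^ k) : ℝ) := by
      exact_mod_cast h8
    linarith

/-- a second loxodromic element -/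
noncomputable def hh : GG := swp 0 1 * tt

theorem cc_hh : cc hh = 1 := rfl

theorem ap_hh {i : ℤ} (hi : i < -1) : ap hh i = i + 1 := by
  simp only [hh, ap_mul, Perm.mul_apply, ap_tt, ap_swp]
  exact Equiv.swap_apply_of_ne_of_ne (by omega) (by omega)

theorem ap_hh_neg_one : ap hh (-1) = 1 := by
  simp only [hh, ap_mul, Perm.mul_apply, ap_tt, ap_swp]
  simp

theorem ap_hh_pow (m : ℕ) : ∀ j < 0, ap (hh ^ m) (j - m) = j := by
  have := pow_near (g := hh) (m := -1) (fun i hi => by rw [ap_hh hi, cc_hh]) (by rw [cc_hh]; simp) m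
  -- the bound `j < 0` needs the value at `-1`
  intro j hj
  rcases lt_or_ge j (-1) with h | h
  · have h1 := this j h
    rwa [cc_hh, mul_one] at h1
  · have hj' : j = -1 := by omega
    subst hj'
    induction m with
    | zero => simp
    | succ m ih =>
      rw [pow_succ, ap_mul, Perm.mul_apply, ap_hh (by push_cast; omega)]
      have e : (-1 : ℤ) - ((m + 1 : ℕ) : ℤ) + 1 = -1 - m := by push_cast; ring
      rw [e]
      apply ih
      exact pow_near (g := hh) (m := -1) (fun i hi => by rw [ap_hh hi, cc_hh])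
        (by rw [cc_hh]; simp) m

theorem ka_one_tt (n : ℕ) : 0 ≤ ka 1 (tt ^ n) :=
  le_ka ⟨le_rfl, by simp, fun j _ => by simp⟩

theorem not_se_1 : ¬ SE (fun g => (wl XX g : ℝ)) tt hh := by
  intro hcon
  obtain ⟨N, hN⟩ := hcon 2
  have h1 := hN (N + 1) (N + 1) (by omega) (by omega)
  have h2 := gpr_le (tt ^ (N + 1)) (hh ^ (N + 1))
  have h3 := ka_one_tt (N + 1)
  have h4 : 0 ≤ ka 1 (hh ^ (N + 1)) := by
    refine le_ka ⟨le_rfl, by simp [cc_hh]; positivity, fun j hj => ?_⟩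
    rw [cc_pow, cc_hh, mul_one, ap_hh_pow (N + 1) j hj]
    simp
  have h5 : ka (tt ^ (N + 1)) (hh ^ (N + 1)) ≤ 0 := by
    by_contra hcon
    push Not at hcon
    have h6 := (rel_ka (tt ^ (N + 1)) (hh ^ (N + 1))).2.2 0 hcon
    rw [cc_pow, cc_pow, cc_hh, cc_tt, mul_one, ap_tt_pow] at h6
    have h7 : ap (hh ^ (N + 1)) (0 - ((N + 1 : ℕ) : ℤ)) = 1 := by
      rw [pow_succ', ap_mul, Perm.mul_apply]
      have e : (0 : ℤ) - ((N + 1 : ℕ) : ℤ) = -1 - (N : ℤ) := by push_cast; ring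
      rw [e, ap_hh_pow N (-1) (by norm_num), ap_hh_neg_one]
    rw [h7] at h6
    simp at h6
  have h3' : (0 : ℝ) ≤ ka 1 (tt ^ (N + 1)) := by exact_mod_cast h3
  have h4' : (0 : ℝ) ≤ ka 1 (hh ^ (N + 1)) := by exact_mod_cast h4
  have h5' : (ka (tt ^ (N + 1)) (hh ^ (N + 1)) : ℝ) ≤ 0 := by exact_mod_cast h5
  linarith

theorem not_se_2 : ¬ SE (fun g => (wl XX g : ℝ)) tt hh⁻¹ := by
  intro hcon
  obtain ⟨N, hN⟩ := hcon 2
  have h1 := hN N N le_rfl le_rfl
  have h2 := gpr_le (tt ^ N) (hh⁻¹ ^ N)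
  have h3 := ka_one_tt N
  have h4 : -(N : ℤ) ≤ ka 1 (hh⁻¹ ^ N) := by
    refine le_ka ⟨by simp, by simp [cc_hh], fun j hj => ?_⟩
    rw [cc_pow, cc_inv, cc_hh, inv_pow, ap_inv, eq_comm, Perm.inv_eq_iff_eq]
    have h5 := ap_hh_pow N (j + N) (by linarith)
    simp only [ap_one, cc_one, sub_zero, Perm.one_apply]
    rw [add_sub_cancel_right] at h5
    rw [h5]
    ring
  have h5 : ka (tt ^ N) (hh⁻¹ ^ N) ≤ -(N : ℤ) := by
    have := (rel_ka (tt ^ N) (hh⁻¹ ^ N)).2.1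
    rw [cc_pow, cc_inv, cc_hh] at this
    linarith
  have h3' : (0 : ℝ) ≤ ka 1 (tt ^ N) := by exact_mod_cast h3
  have h4' : (-(N : ℤ) : ℝ) ≤ ka 1 (hh⁻¹ ^ N) := by exact_mod_cast h4
  have h5' : (ka (tt ^ N) (hh⁻¹ ^ N) : ℝ) ≤ (-(N : ℤ) : ℝ) := by exact_mod_cast h5
  linarith

end Pool.Agent.J4.H8.QP
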