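import Mathlib
import Pool.Agent.J4.H8.QP.Tree

/-!
# The group `GG` has exactly one quasi-parabolic structure
-/

set_option autoImplicit false

namespace Pool.Agent.J4.H8.QP

open Equiv Pointwise

/-- `g` acts loxodromically on the Cayley graph -/
def Lox {G : Type*} [Group G] (S : Set G) (g : G) : Prop :=
  ∃ c : ℝ, 0 < c ∧ ∀ n : ℕ, c * (n : ℝ) ≤ (wl S (g ^ n) : ℝ)

/-- the real valued word length -/
noncomputable abbrev rl {G : Type*} [Group G] (S : Set G) : G → ℝ := fun g => (wl S g : ℝ)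

/-- the structure is quasi-parabolic -/
def QPS {G : Type*} [Group G] (S : Set G) : Prop :=
  Subgroup.closure S = ⊤ ∧
   (∃ δ : ℝ, ∀ x y z : G, min (gpr (rl S) x y) (gpr (rl S) y z) - δ ≤ gpr (rl S) x z) ∧
   (∃ g h : G, Lox S g ∧ Lox S h ∧
      ¬ ((SE (rl S) g h ∧ SE (rl S) g⁻¹ h⁻¹) ∨
         (SE (rl S) g h⁻¹ ∧ SE (rl S) g⁻¹ h))) ∧
   (∀ g h : G, Lox S g → Lox S h →
      (SE (rl S) g h ∨ SE (rl S) g h⁻¹ ∨ SE (rl S) g⁻¹ h ∨ SE (rl S) g⁻¹ h⁻¹))

theorem qps_XX : QPS XX := by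
  refine ⟨closure_XX, ⟨3 / 2, hyp_XX⟩, ⟨tt, hh, lox_XX (by simp), lox_XX (by rw [cc_hh]; simp),
    ?_⟩, ?_⟩
  · rintro (⟨h1, -⟩ | ⟨h1, -⟩)
    · exact not_se_1 h1
    · exact not_se_2 h1
  · rintro g h ⟨c, hc, hg⟩ ⟨c', hc', hh⟩
    have h1 := cc_ne_zero_of_lox (wl_lenFn closure_XX) hc hg
    have h2 := cc_ne_zero_of_lox (wl_lenFn closure_XX) hc' hh
    rcases lt_or_gt_of_ne h1 with h1 | h1 <;> rcases lt_or_gt_of_ne h2 with h2 | h2
    · left
      exact se_XX h1 h2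
    · right; left
      exact se_XX h1 (by simpa using h2)
    · right; right; left
      exact se_XX (by simpa using h1) h2
    · right; right; right
      exact se_XX (by simpa using h1) (by simpa using h2)

theorem unique {Y : Set GG} (hY : QPS Y) :
    (∃ C : ℕ, ∀ y ∈ Y, wl XX y ≤ C) ∧ (∃ C : ℕ, ∀ x ∈ XX, wl Y x ≤ C) := by
  obtain ⟨hcl, ⟨δ, hδ⟩, ⟨g, h, ⟨c, hc, hg⟩, ⟨c', hc', hh⟩, hne⟩, -⟩ := hY
  have hl := wl_lenFn hcl
  have hyp : Hyp (rl Y) δ := hδ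
  obtain ⟨c0, hc0, hlin⟩ := lox_tt hl hc hg
  have hunb : ¬ ∃ R : ℝ, ∀ g : GG, cc g = 0 → rl Y g ≤ R := by
    rintro ⟨R, hR⟩
    apply hne
    have h1 := cc_ne_zero_of_lox hl hc hg
    have h2 := cc_ne_zero_of_lox hl hc' hh
    rcases lt_or_gt_of_ne h1 with h1 | h1 <;> rcases lt_or_gt_of_ne h2 with h2 | h2
    · left
      exact ⟨same_end_of_bdd hl hyp hc0 hlin hR (Or.inr ⟨h1, h2⟩),
        same_end_of_bdd hl hyp hc0 hlin hR (Or.inl ⟨by simpa using h1, by simpa using h2⟩)⟩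
    · right
      exact ⟨same_end_of_bdd hl hyp hc0 hlin hR (Or.inr ⟨h1, by simpa using h2⟩),
        same_end_of_bdd hl hyp hc0 hlin hR (Or.inl ⟨by simpa using h1, h2⟩)⟩
    · right
      exact ⟨same_end_of_bdd hl hyp hc0 hlin hR (Or.inl ⟨h1, by simpa using h2⟩),
        same_end_of_bdd hl hyp hc0 hlin hR (Or.inr ⟨by simpa using h1, h2⟩)⟩
    · left
      exact ⟨same_end_of_bdd hl hyp hc0 hlin hR (Or.inl ⟨h1, h2⟩),
        same_end_of_bdd hl hyp hc0 hlin hR (Or.inr ⟨by simpa using h1, by simpa using h2⟩)⟩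
  constructor
  · obtain ⟨m, hm⟩ := coarse hl hyp hc0 hlin hunb 1
    have key : ∀ y : GG, wl Y y ≤ 1 → cc y ≤ 0 → wl XX y ≤ 5 * m + 1 := by
      intro y hy hy0
      obtain ⟨h1, h2⟩ := hm y (by exact_mod_cast hy)
      have h3 := h2 hy0
      rw [abs_le] at h1
      have h4 : Rel 1 y (-(2 * m : ℤ)) := by
        refine ⟨by rw [cc_one]; linarith, by linarith, fun j hj => ?_⟩
        have h5 := h3.2 j (by linarith)
        rw [ap_mul, Perm.mul_apply, ap_inv, ap_tt_zpow_inv] at h5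
        rw [h5]
        simp
      have h5 := TT_le h4
      have h6 := wl_le_TT y
      have h7 : (wl XX y : ℤ) ≤ 5 * m + 1 := by linarith
      exact_mod_cast h7
    refine ⟨5 * m + 1, fun y hy => ?_⟩
    have h1 : wl Y y ≤ 1 := wl_le (by rw [pow_one]; exact Or.inl hy)
    rcases le_total (cc y) 0 with h2 | h2
    · exact key y h1 h2
    · have h3 := key y⁻¹ ((wl_inv_le hcl y).trans h1) (by simpa using h2)
      have h4 := wl_inv_le closure_XX y⁻¹
      rw [inv_inv] at h4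
      exact h4.trans h3
  · obtain ⟨M, hM⟩ := bdd_P0 hl
    obtain ⟨C, hC⟩ := exists_nat_ge M
    refine ⟨C + wl Y tt, ?_⟩
    rintro x (hx | hx)
    · have h1 : (wl Y x : ℝ) ≤ C := (hM x hx).trans hC
      have h2 : wl Y x ≤ C := by exact_mod_cast h1
      omega
    · rw [Set.mem_singleton_iff.1 hx]
      omega

end Pool.Agent.J4.H8.QP
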